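import Pool.Graph.R_pool_sql_team_seeded_ab47071d.TH835.HF.Main

/-!
# Averages over the translations of the second factor
-/

set_option autoImplicit false
set_option maxSynthPendingDepth 3

open Set Filter Topology
open scoped ContDiff

noncomputable section

namespace Pool.Agent.H24.FD

open Pool.Agent.TH835.HF

variable {E V G H : Type*} [NormedAddCommGroup E] [NormedSpace ℝ E]
  [NormedAddCommGroup V] [NormedSpace ℝ V] [NormedAddCommGroup G] [NormedSpace ℝ G]
  [NormedAddCommGroup H] [NormedSpace ℝ H]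

/-- the iterated average over the segments of translations by the vectors of the list -/
def AV (l : List V) (f : E × V → G) : E × V → G := l.foldr (fun v g => av ((0 : E), v) g) f

theorem AV_nil (f : E × V → G) : AV [] f = f := rfl

theorem AV_cons (v : V) (l : List V) (f : E × V → G) :
    AV (v :: l) f = av ((0 : E), v) (AV l f) := rfl

theorem mv {S : Set E} {p : E × V} (hp : p ∈ S ×ˢ (univ : Set V)) (τ : ℝ) (v : V) :
    p + τ • ((0 : E), v) ∈ S ×ˢ (univ : Set V) := by
  refine ⟨?_, mem_univ _⟩
  have h1 : (p + τ • ((0 : E), v)).1 = p.1 := by simp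
  rw [h1]
  exact hp.1

theorem AV_fib {E' : Type*} [NormedAddCommGroup E'] [NormedSpace ℝ E'] (l : List V)
    {f : E × V → G} {g : E' × V → G} {y : E} {y' : E'} (h : ∀ s, f (y, s) = g (y', s)) :
    ∀ s, AV l f (y, s) = AV l g (y', s) := by
  induction l with
  | nil => exact h
  | cons v l ih =>
    intro s
    rw [AV_cons, AV_cons, av_apply, av_apply]
    exact intervalIntegral.integral_congr fun τ _ => ih _

theorem AV_congr (l : List V) {S : Set E} {f g : E × V → G}
    (h : ∀ p ∈ S ×ˢ (univ : Set V), f p = g p) : ∀ p ∈ S ×ˢ (univ : Set V), AV l f p = AV l g p := by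
  rintro ⟨y, s⟩ hp
  exact AV_fib l (fun s => h (y, s) ⟨hp.1, mem_univ _⟩) s

theorem AV_zero (l : List V) (p : E × V) : AV l (fun _ : E × V => (0 : G)) p = 0 := by
  induction l generalizing p with
  | nil => rfl
  | cons v l ih =>
    rw [AV_cons]
    unfold av
    simp only [ih]
    simp

variable [FiniteDimensional ℝ E] [FiniteDimensional ℝ V]

theorem AV_smooth [CompleteSpace G] (l : List V) {S : Set E} (hS : IsOpen S) {f : E × V → G}
    (hf : ContDiffOn ℝ ∞ f (S ×ˢ (univ : Set V))) :
    ContDiffOn ℝ ∞ (AV l f) (S ×ˢ (univ : Set V)) := by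
  induction l with
  | nil => exact hf
  | cons v l ih => exact av_smooth (hS.prod isOpen_univ) (fun p hp τ => mv hp τ v) ih

theorem AV_deriv [CompleteSpace G] (l : List V) {S : Set E} (hS : IsOpen S) {f : E × V → G}
    (hf : ContDiffOn ℝ ∞ f (S ×ˢ (univ : Set V))) :
    ∀ p ∈ S ×ˢ (univ : Set V), HasFDerivAt (AV l f) (AV l (fderiv ℝ f) p) p := by
  induction l with
  | nil =>
    intro p hp
    exact ((hf.contDiffAt ((hS.prod isOpen_univ).mem_nhds hp)).differentiableAt
      (by simp)).hasFDerivAt
  | cons v l ih =>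
    intro p hp
    have h1 := av_hasFDerivAt (hS.prod isOpen_univ) (fun p hp τ => mv hp τ v)
      (AV_smooth l hS hf) hp
    have h2 : (∫ τ in (0:ℝ)..1, fderiv ℝ (AV l f) (p + τ • ((0 : E), v))) =
        AV (v :: l) (fderiv ℝ f) p := by
      rw [AV_cons]
      unfold av
      refine intervalIntegral.integral_congr fun τ _ => ?_
      exact (ih _ (mv hp τ v)).fderiv
    rw [← h2]
    exact h1

theorem AV_clm [CompleteSpace G] [CompleteSpace H] (L : G →L[ℝ] H) (l : List V) {S : Set E}
    (hS : IsOpen S) {f : E × V → G} (hf : ContDiffOn ℝ ∞ f (S ×ˢ (univ : Set V))) :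
    ∀ p ∈ S ×ˢ (univ : Set V), AV l (fun p => L (f p)) p = L (AV l f p) := by
  induction l with
  | nil => exact fun p _ => rfl
  | cons v l ih =>
    intro p hp
    have hc : Continuous fun τ : ℝ => AV l f (p + τ • ((0 : E), v)) :=
      av_cont (fun p hp τ => mv hp τ v) (AV_smooth l hS hf).continuousOn hp
    rw [AV_cons, AV_cons]
    unfold av
    rw [← ContinuousLinearMap.intervalIntegral_comp_comm L (hc.intervalIntegrable 0 1)]
    exact intervalIntegral.integral_congr fun τ _ => ih _ (mv hp τ v)

omit [FiniteDimensional ℝ E] [FiniteDimensional ℝ V] in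
theorem AV_per (l : List V) {S : Set E} {f : E × V → G} {c : V}
    (h : ∀ p ∈ S ×ˢ (univ : Set V), f (p + ((0 : E), c)) = f p) :
    ∀ p ∈ S ×ˢ (univ : Set V), AV l f (p + ((0 : E), c)) = AV l f p := by
  induction l with
  | nil => exact h
  | cons v l ih =>
    intro p hp
    rw [AV_cons]
    unfold av
    refine intervalIntegral.integral_congr fun τ _ => ?_
    show AV l f (p + ((0 : E), c) + τ • ((0 : E), v)) = AV l f (p + τ • ((0 : E), v))
    rw [add_right_comm]
    exact ih _ (mv hp τ v)

/-- the average of the derivative of a periodic function in a direction of period is zero -/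
theorem AV_div [CompleteSpace G] (l : List V) {S : Set E} (hS : IsOpen S) {g : E × V → G}
    (hg : ContDiffOn ℝ ∞ g (S ×ˢ (univ : Set V))) {b : V} (hb : b ∈ l)
    (hper : ∀ p ∈ S ×ˢ (univ : Set V), g (p + ((0 : E), b)) = g p) :
    ∀ p ∈ S ×ˢ (univ : Set V), AV l (fun p => fderiv ℝ g p ((0 : E), b)) p = 0 := by
  induction l with
  | nil => exact absurd hb (List.not_mem_nil)
  | cons v l ih =>
    intro p hp
    rcases List.mem_cons.1 hb with rfl | hb
    · have hdf : ContDiffOn ℝ ∞ (fderiv ℝ g) (S ×ˢ (univ : Set V)) :=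
        hg.fderiv_of_isOpen (hS.prod isOpen_univ) (by simp)
      have h1 : ∀ p ∈ S ×ˢ (univ : Set V), AV l (fun p => fderiv ℝ g p ((0 : E), b)) p =
          fderiv ℝ (AV l g) p ((0 : E), b) := by
        intro p hp
        rw [(AV_deriv l hS hg p hp).fderiv]
        exact AV_clm (ContinuousLinearMap.apply ℝ G ((0 : E), b)) l hS hdf p hp
      have hsm := AV_smooth l hS hg
      rw [AV_cons]
      unfold av
      have h2 : (∫ τ in (0:ℝ)..1, AV l (fun p => fderiv ℝ g p ((0 : E), b))
          (p + τ • ((0 : E), b))) =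
          ∫ τ in (0:ℝ)..1, fderiv ℝ (AV l g) (p + τ • ((0 : E), b)) ((0 : E), b) :=
        intervalIntegral.integral_congr fun τ _ => h1 _ (mv hp τ b)
      rw [h2]
      have h3 : ∀ τ : ℝ, HasDerivAt (fun τ : ℝ => AV l g (p + τ • ((0 : E), b)))
          (fderiv ℝ (AV l g) (p + τ • ((0 : E), b)) ((0 : E), b)) τ := by
        intro τ
        have h4 : HasDerivAt (fun τ : ℝ => p + τ • ((0 : E), b)) ((0 : E), b) τ := by
          have h5 := ((hasDerivAt_id τ).smul_const ((0 : E), b)).const_add p
          rw [one_smul] at h5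
          exact h5
        have h6 : DifferentiableAt ℝ (AV l g) (p + τ • ((0 : E), b)) :=
          (hsm.contDiffAt ((hS.prod isOpen_univ).mem_nhds (mv hp τ b))).differentiableAt (by simp)
        exact h6.hasFDerivAt.comp_hasDerivAt τ h4
      have h7 : Continuous fun τ : ℝ =>
          fderiv ℝ (AV l g) (p + τ • ((0 : E), b)) ((0 : E), b) := by
        have h8 : ContDiffOn ℝ ∞ (fun p => fderiv ℝ (AV l g) p ((0 : E), b))
            (S ×ˢ (univ : Set V)) :=
          (hsm.fderiv_of_isOpen (hS.prod isOpen_univ) (by simp)).clm_apply contDiffOn_const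
        exact av_cont (fun p hp τ => mv hp τ b) h8.continuousOn hp
      rw [intervalIntegral.integral_eq_sub_of_hasDerivAt (fun τ _ => h3 τ)
        (h7.intervalIntegrable 0 1)]
      rw [one_smul, zero_smul, add_zero, AV_per l hper p hp, sub_self]
    · rw [AV_cons]
      unfold av
      have h1 : (∫ τ in (0:ℝ)..1, AV l (fun p => fderiv ℝ g p ((0 : E), b))
          (p + τ • ((0 : E), v))) = ∫ τ in (0:ℝ)..1, (0 : G) :=
        intervalIntegral.integral_congr fun τ _ => ih hb _ (mv hp τ v)
      rw [h1]
      simp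

theorem AV_stab [CompleteSpace G] (l : List V) {S : Set E} (hS : IsOpen S) {f : E × V → G}
    (hf : ContDiffOn ℝ ∞ f (S ×ˢ (univ : Set V))) {y : E} (hy : y ∈ S) {Q : G → Prop}
    (hQ : Stab Q) (h : ∀ s, Q (f (y, s))) : ∀ s, Q (AV l f (y, s)) := by
  induction l with
  | nil => exact h
  | cons v l ih =>
    intro s
    rw [AV_cons, av_apply]
    refine hQ _ ?_ fun τ => ih _
    have h1 := av_cont (a := ((0 : E), v)) (fun p hp τ => mv hp τ v)
      (AV_smooth l hS hf).continuousOn (p := (y, s)) ⟨hy, mem_univ _⟩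
    have h2 : (fun τ : ℝ => AV l f ((y, s) + τ • ((0 : E), v))) =
        fun τ : ℝ => AV l f (y, s + τ • v) := by
      funext τ
      simp
    rw [h2] at h1
    exact h1

end Pool.Agent.H24.FD
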