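import Mathlib

/-!
# Definitions

Differential two-forms on manifolds are given by their coordinate expressions in charts: the form `w`
has in the chart `i` the value `w i y u v` at the point `y` and the tangent vectors `u`, `v`.
-/

set_option autoImplicit false

open Set
open scoped ContDiff Manifold

noncomputable section

namespace Pool.Agent.H24.FDP

/-- A closed two-form on a manifold `M` that is covered by the charts `c i` with values in the
finite-dimensional space `F`. It is given by its coordinate expressions `w i` in the charts: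
`w i y u v` is bilinear and antisymmetric in `u`, `v` (`linear` and `anti`), smooth in `y`, and
* `compat`: `w i` is the pull-back of `w j` under the transition map `c j ∘ (c i)⁻¹`, so that the
  `w i` define one `2`-form on `M`;
* `closed`: the exterior derivative `dw(u, v, z) = D_u w(v, z) + D_v w(z, u) + D_z w(u, v)`
  vanishes. -/
structure IsClosedForm {ι M F : Type*} [TopologicalSpace M] [NormedAddCommGroup F]
    [NormedSpace ℝ F] (c : ι → OpenPartialHomeomorph M F) (w : ι → F → F → F → ℝ) : Prop where
  linear : ∀ i, ∀ y ∈ (c i).target, ∀ (a : ℝ) (u u' v : F),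
    w i y (a • u + u') v = a * w i y u v + w i y u' v
  anti : ∀ i, ∀ y ∈ (c i).target, ∀ u v, w i y u v = - w i y v u
  smooth : ∀ i u v, ContDiffOn ℝ ∞ (fun y => w i y u v) (c i).target
  compat : ∀ i j, ∀ x ∈ (c i).source ∩ (c j).source, ∀ u v,
    w i (c i x) u v = w j (c j x) (fderiv ℝ (c j ∘ (c i).symm) (c i x) u)
      (fderiv ℝ (c j ∘ (c i).symm) (c i x) v)
  closed : ∀ i, ∀ y ∈ (c i).target, ∀ u v z,
    fderiv ℝ (fun y => w i y v z) y u + fderiv ℝ (fun y => w i y z u) y v +
      fderiv ℝ (fun y => w i y u v) y z = 0

/-- A symplectic form: a closed two-form which is nondegenerate at every point. -/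
structure IsSymplectic {ι M F : Type*} [TopologicalSpace M] [NormedAddCommGroup F]
    [NormedSpace ℝ F] (c : ι → OpenPartialHomeomorph M F) (w : ι → F → F → F → ℝ) : Prop where
  closedForm : IsClosedForm c w
  nondeg : ∀ i, ∀ y ∈ (c i).target, ∀ u, u ≠ 0 → ∃ v, w i y u v ≠ 0

/-- the charts of the manifold `X` -/
def charts (E X : Type*) [TopologicalSpace E] [TopologicalSpace X] [ChartedSpace E X] :
    atlas E X → OpenPartialHomeomorph X E := fun e => e

/-- the charts `e × id` of the manifold `X × V`, for the charts `e` of `X` -/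
def productCharts (E X V : Type*) [TopologicalSpace E] [TopologicalSpace X] [ChartedSpace E X]
    [TopologicalSpace V] : atlas E X → OpenPartialHomeomorph (X × V) (E × V) :=
  fun e => (charts E X e).prod (OpenPartialHomeomorph.refl V)

/-- The Pfaffian of the antisymmetric matrix `w (c i) (c j)` of size `2 k`, defined by expansion
along the first row. Up to the factor `k!` this is the value of `w ^ k` on the tuple `c`. -/
def pfaffian {F : Type*} (w : F → F → ℝ) : (k : ℕ) → (Fin (2 * k) → F) → ℝ
  | 0, _ => 1
  | k + 1, c => ∑ j : Fin (2 * k + 1), (-1) ^ (j : ℕ) * w (c 0) (c (Fin.succ j)) *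
      pfaffian w k fun i => c (Fin.succ (Fin.succAbove j i))

section

variable {E X V ι : Type*} [NormedAddCommGroup E] [NormedSpace ℝ E]
  [NormedAddCommGroup V] [NormedSpace ℝ V] [TopologicalSpace X] [ChartedSpace E X]

/-- the form `w` on `X × V` is invariant under the translations by the vectors `b i` of `V`, that
is, it is a form on the product of `X` with the torus `V / Λ`, `Λ` the lattice spanned by `b` -/
def IsPeriodic (b : ι → V) (w : atlas E X → E × V → E × V → E × V → ℝ) : Prop :=
  ∀ e, ∀ y ∈ (charts E X e).target, ∀ (s : V) (i : ι), w e (y, s + b i) = w e (y, s)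

/-- the form `w` on `X` tames the field `j` of endomorphisms of the tangent spaces of `X`, given in
the charts: `w (u, j u) > 0` for all nonzero tangent vectors `u` -/
def Tames (w : atlas E X → E → E → E → ℝ) (j : atlas E X → E → E →ₗ[ℝ] E) : Prop :=
  ∀ e, ∀ y ∈ (charts E X e).target, ∀ u, u ≠ 0 → 0 < w e y u (j e y u)

/-- The form `w` on `X × V` tames a field of endomorphisms `J` of the tangent spaces of `X × V` that
is fibred over the field `j` of endomorphisms of the tangent spaces of `X`: at each point `(y, s)`,
`w (z, J z) > 0` for all nonzero `z`, and the projection to `X` maps `J` to `j`. (If `J` and `j` are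
almost complex structures, this means that the projection is pseudoholomorphic. `J` may depend
on `s`, and no continuity is required.) -/
def TamesFibredOver (w : atlas E X → E × V → E × V → E × V → ℝ)
    (j : atlas E X → E → E →ₗ[ℝ] E) : Prop :=
  ∀ e, ∀ y ∈ (charts E X e).target, ∀ s : V, ∃ J : (E × V) →ₗ[ℝ] (E × V),
    (∀ z, z ≠ 0 → 0 < w e (y, s) z (J z)) ∧ ∀ z, (J z).1 = j e y z.1

/-- the value of `w ^ (k + 1) / (k + 1)!` on the horizontal vectors `u`, `v` and the vertical
vectors `b 1, …, b (2 k)` -/
def fibrePower {k : ℕ} (b : Fin (2 * k) → V) (w : E × V → E × V → ℝ) (u v : E) : ℝ :=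
  pfaffian w (k + 1) (Fin.cons (u, 0) (Fin.cons (v, 0) fun i => (0, b i)) :
    Fin (2 * k + 1 + 1) → E × V)

/-- `c w ^ (k + 1) (u, j u, b 1, …, b (2 k)) > 0` at all points `(y, s)` and for all nonzero
horizontal vectors `u` -/
def FibrePowerTames {k : ℕ} (b : Fin (2 * k) → V) (c : ℝ)
    (w : atlas E X → E × V → E × V → E × V → ℝ) (j : atlas E X → E → E →ₗ[ℝ] E) : Prop :=
  ∀ e, ∀ y ∈ (charts E X e).target, ∀ s : V, ∀ u, u ≠ 0 →
    0 < c * fibrePower b (w e (y, s)) u (j e y u)

end

end Pool.Agent.H24.FDP
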