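import Pool.Agent.H24.FD.Mn
import Pool.Agent.H24.FD.Pub

/-!
# Comparison of the definitions
-/

set_option autoImplicit false
set_option maxSynthPendingDepth 3

open Set
open scoped ContDiff Manifold

noncomputable section

namespace Pool.Agent.H24.FD

open Pool.Agent.TH242.TI Pool.Agent.TH835.HF Pool.Agent.H24.FDP

section

variable {F : Type*} [NormedAddCommGroup F] [NormedSpace ℝ F]

theorem exists_clm [FiniteDimensional ℝ F] {w : F → F → ℝ}
    (hl : ∀ (a : ℝ) (u u' v : F), w (a • u + u') v = a * w u v + w u' v)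
    (ha : ∀ u v, w u v = - w v u) : ∃ Φ : F →L[ℝ] F →L[ℝ] ℝ, ∀ u v, Φ u v = w u v := by
  have hadd : ∀ u u' v, w (u + u') v = w u v + w u' v := by
    intro u u' v
    have := hl 1 u u' v
    rwa [one_smul, one_mul] at this
  have hz : ∀ v, w 0 v = 0 := by
    intro v
    have := hadd 0 0 v
    rw [add_zero] at this
    linarith
  have hsm : ∀ (a : ℝ) (u v : F), w (a • u) v = a * w u v := by
    intro a u v
    have := hl a u 0 v
    rw [add_zero, hz, add_zero] at this
    exact this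
  let B : F →ₗ[ℝ] F →ₗ[ℝ] ℝ := LinearMap.mk₂ ℝ w hadd hsm
    (fun u v v' => by rw [ha u, hadd, ha v, ha v']; ring)
    (fun a u v => by rw [ha u, hsm, ha v]; simp)
  let T : (F →ₗ[ℝ] ℝ) →ₗ[ℝ] (F →L[ℝ] ℝ) :=
    (LinearMap.toContinuousLinearMap (𝕜 := ℝ) (E := F) (F' := ℝ)).toLinearMap
  exact ⟨LinearMap.toContinuousLinearMap (T ∘ₗ B), fun u v => rfl⟩

theorem clm_of_apply [FiniteDimensional ℝ F] {P : Type*} [NormedAddCommGroup P] [NormedSpace ℝ P]
    {W : P → F →L[ℝ] F →L[ℝ] ℝ} {s : Set P}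
    (h : ∀ u v, ContDiffOn ℝ ∞ (fun p => W p u v) s) : ContDiffOn ℝ ∞ W s := by
  rw [contDiffOn_clm_apply]
  intro u
  rw [contDiffOn_clm_apply]
  exact fun v => h u v

/-- the power is a multiple of the Pfaffian -/
theorem power_eq_pfaffian {Φ : F →L[ℝ] F →L[ℝ] ℝ} (ha : ∀ u v, Φ u v = - Φ v u)
    (w : F → F → ℝ) (hw : ∀ u v, Φ u v = w u v) (k : ℕ) :
    ∀ c : Fin (2 * k) → F, power Φ k c = (2 ^ k * (k.factorial : ℝ)) * pfaffian w k c := by
  induction k with
  | zero =>
    intro c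
    show (1 : ℝ) = _
    simp [pfaffian]
  | succ k ih =>
    intro c
    let c' : Fin (2 * k + 1 + 1) → F := c
    have hc : c' = Matrix.vecCons (c' 0) (fun i => c' (Fin.succ i)) := by
      funext i
      refine Fin.cases rfl (fun i => rfl) i
    have h1 : power Φ (k + 1) c =
        cL (m := 2 * k + 1) (c' 0) (power Φ (k + 1)) (fun i => c' (Fin.succ i)) := by
      rw [cL_apply']
      show power Φ (k + 1) c' = _
      conv_lhs => rw [hc]
    rw [h1, cL_power Φ ha]
    show (2 * ((k : ℝ) + 1)) * (W (Φ (c' 0)) (power Φ k) (fun i => c' (Fin.succ i))) = _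
    rw [W_apply]
    have h2 : ∀ i : Fin (2 * k + 1), (-1 : ℤ) ^ (i : ℕ) • (Φ (c' 0) (c' (Fin.succ i)) •
        power Φ k (i.removeNth fun i => c' (Fin.succ i))) =
        (2 ^ k * (k.factorial : ℝ)) * ((-1) ^ (i : ℕ) * w (c' 0) (c' (Fin.succ i)) *
          pfaffian w k fun m => c' (Fin.succ (Fin.succAbove i m))) := by
      intro i
      rw [ih, hw, smul_eq_mul, zsmul_eq_mul]
      have h3 : (i.removeNth fun i => c' (Fin.succ i)) =
        fun m => c' (Fin.succ (Fin.succAbove i m)) := rfl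
      rw [h3]
      push_cast
      ring
    rw [Finset.sum_congr rfl fun i _ => h2 i, ← Finset.mul_sum]
    have h4 : pfaffian w (k + 1) c = ∑ i : Fin (2 * k + 1), ((-1) ^ (i : ℕ) *
        w (c' 0) (c' (Fin.succ i)) * pfaffian w k fun m => c' (Fin.succ (Fin.succAbove i m))) := by
      rw [pfaffian]
    rw [h4, pow_succ, Nat.factorial_succ]
    push_cast
    ring

end

section

variable {E V : Type*} [NormedAddCommGroup E] [NormedSpace ℝ E]
  [NormedAddCommGroup V] [NormedSpace ℝ V]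

theorem fib_eq {k : ℕ} (b : Fin (2 * k) → V) {Φ : (E × V) →L[ℝ] (E × V) →L[ℝ] ℝ}
    (ha : ∀ u v, Φ u v = - Φ v u) (w : E × V → E × V → ℝ) (hw : ∀ u v, Φ u v = w u v) (u v : E) :
    fib b Φ u v = (2 ^ (k + 1) * ((k + 1).factorial : ℝ)) * fibrePower b w u v :=
  power_eq_pfaffian ha w hw (k + 1) _

end

theorem exists_gen {ι M F : Type*} [TopologicalSpace M] [NormedAddCommGroup F]
    [NormedSpace ℝ F] [FiniteDimensional ℝ F] {c : ι → OpenPartialHomeomorph M F}
    {w : ι → F → F → F → ℝ} (h : IsClosedForm c w) :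
    ∃ om : ι → F → F →L[ℝ] F →L[ℝ] ℝ, (∀ e, ContDiffOn ℝ ∞ (om e) (c e).target) ∧
      (∀ e, ∀ p ∈ (c e).target, ∀ u, om e p u u = 0) ∧
      (∀ i j, ∀ x ∈ (c i).source ∩ (c j).source, ∀ u v,
        om i (c i x) u v = om j (c j x) (fderiv ℝ (c j ∘ (c i).symm) (c i x) u)
          (fderiv ℝ (c j ∘ (c i).symm) (c i x) v)) ∧
      (∀ i, ∀ y ∈ (c i).target, ∀ u v z,
        fderiv ℝ (om i) y u v z + fderiv ℝ (om i) y v z u + fderiv ℝ (om i) y z u v = 0) ∧
      ∀ e, ∀ p ∈ (c e).target, ∀ u v, om e p u v = w e p u v := by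
  have h1 : ∀ e, ∀ p ∈ (c e).target,
      ∃ Φ : F →L[ℝ] F →L[ℝ] ℝ, ∀ u v, Φ u v = w e p u v := fun e p hp =>
    exists_clm (h.linear e p hp) (h.anti e p hp)
  choose! om hom using h1
  have hsm : ∀ e, ContDiffOn ℝ ∞ (om e) (c e).target := fun e =>
    clm_of_apply fun u v => (h.smooth e u v).congr fun p hp => hom e p hp u v
  have hfd : ∀ e, ∀ p ∈ (c e).target, ∀ u v z,
      fderiv ℝ (om e) p z u v = fderiv ℝ (fun p => w e p u v) p z := by
    intro e p hp u v z
    have hd : DifferentiableAt ℝ (om e) p :=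
      ((hsm e).contDiffAt ((c e).open_target.mem_nhds hp)).differentiableAt
        (by simp)
    have h2 := fderiv_ev hd u v
    have h3 : (fun p => w e p u v) =ᶠ[nhds p] fun p => om e p u v := by
      filter_upwards [(c e).open_target.mem_nhds hp] with q hq
      exact (hom e q hq u v).symm
    rw [h3.fderiv_eq, h2.fderiv]
    rfl
  refine ⟨om, hsm, fun e p hp u => ?_, ?_, fun e p hp u v z => ?_, hom⟩
  · rw [hom e p hp]
    have := h.anti e p hp u u
    linarith
  · intro e e' x hx u v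
    rw [hom e _ ((c e).map_source hx.1), hom e' _ ((c e').map_source hx.2)]
    exact h.compat e e' x hx u v
  · rw [hfd e p hp, hfd e p hp, hfd e p hp]
    exact h.closed e p hp u v z

theorem symplectic_of {ι M F : Type*} [TopologicalSpace M] [NormedAddCommGroup F]
    [NormedSpace ℝ F] {c : ι → OpenPartialHomeomorph M F} {om : ι → F → F →L[ℝ] F →L[ℝ] ℝ}
    (h : Sym c om) : IsSymplectic c fun i y u v => om i y u v := by
  have hfd : ∀ i, ∀ y ∈ (c i).target, ∀ u v z,
      fderiv ℝ (fun y => om i y u v) y z = fderiv ℝ (om i) y z u v := by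
    intro i y hy u v z
    have hd : DifferentiableAt ℝ (om i) y :=
      ((h.smooth i).contDiffAt ((c i).open_target.mem_nhds hy)).differentiableAt (by simp)
    rw [(fderiv_ev hd u v).fderiv]
    rfl
  refine ⟨⟨fun i y _ a u u' v => ?_, fun i y hy u v => anti_of_alt (h.alt i y hy) u v,
    fun i u v => ?_, h.compat, fun i y hy u v z => ?_⟩, h.nondeg⟩
  · have h1 : om i y (a • u + u') = a • om i y u + om i y u' := by
      rw [map_add, map_smul]
    show om i y (a • u + u') v = _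
    rw [h1]
    rfl
  · exact clm_smooth (A := F →L[ℝ] F →L[ℝ] ℝ) (B := ℝ) (C := F) (evL u v) (h.smooth i)
  · show fderiv ℝ (fun y => om i y v z) y u + fderiv ℝ (fun y => om i y z u) y v +
      fderiv ℝ (fun y => om i y u v) y z = 0
    rw [hfd i y hy, hfd i y hy, hfd i y hy]
    exact h.closed i y hy u v z

end Pool.Agent.H24.FD
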