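import Pool.Agent.H24.FD.Ctr

/-!
# Powers of a closed two-form are closed
-/

set_option autoImplicit false
set_option maxSynthPendingDepth 3

open ContinuousAlternatingMap
open scoped ContDiff

noncomputable section

namespace Pool.Agent.H24.FD

variable {F : Type*} [NormedAddCommGroup F] [NormedSpace ℝ F]

/-- cyclic rotation of the arguments -/
def rot {G : Type*} [NormedAddCommGroup G] [NormedSpace ℝ G]
    (g : F →L[ℝ] F →L[ℝ] F →L[ℝ] G) : F →L[ℝ] F →L[ℝ] F →L[ℝ] G :=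
  (ContinuousLinearMap.flipₗᵢ ℝ F F G).toContinuousLinearEquiv.toContinuousLinearMap ∘L g.flip

theorem rot_apply {G : Type*} [NormedAddCommGroup G] [NormedSpace ℝ G]
    (g : F →L[ℝ] F →L[ℝ] F →L[ℝ] G) (a b c : F) : rot g a b c = g c a b := rfl

theorem clm_smooth {A B C : Type*} [NormedAddCommGroup A] [NormedSpace ℝ A]
    [NormedAddCommGroup B] [NormedSpace ℝ B] [NormedAddCommGroup C] [NormedSpace ℝ C]
    (L : A →L[ℝ] B) {f : C → A} {s : Set C} (hf : ContDiffOn ℝ ∞ f s) :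
    ContDiffOn ℝ ∞ (fun x => L (f x)) s :=
  L.contDiff.comp_contDiffOn hf

theorem clm_deriv {A B C : Type*} [NormedAddCommGroup A] [NormedSpace ℝ A]
    [NormedAddCommGroup B] [NormedSpace ℝ B] [NormedAddCommGroup C] [NormedSpace ℝ C]
    (L : A →L[ℝ] B) {f : C → A} {f' : C →L[ℝ] A} {x : C} (hf : HasFDerivAt f f' x) :
    HasFDerivAt (fun y => L (f y)) (L ∘L f') x :=
  L.hasFDerivAt.comp x hf

theorem clm_cont {A B Z : Type*} [NormedAddCommGroup A] [NormedSpace ℝ A]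
    [NormedAddCommGroup B] [NormedSpace ℝ B] [TopologicalSpace Z]
    (L : A →L[ℝ] B) {f : Z → A} (hf : Continuous f) : Continuous (fun x => L (f x)) :=
  L.continuous.comp hf

theorem A3_zero_of_cyc {m : ℕ} (g : F →L[ℝ] F →L[ℝ] F →L[ℝ] F [⋀^Fin m]→L[ℝ] ℝ)
    (h : ∀ a b c, g a b c + g b c a + g c a b = 0) : A3 F m g = 0 := by
  have h1 : A3 F m (rot g) = A3 F m g := A3_cyc g (rot g) fun a b c => rfl
  have h2 : A3 F m (rot (rot g)) = A3 F m (rot g) := A3_cyc _ _ fun a b c => rfl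
  have h3 : g + rot (rot g) + rot g = 0 := by
    ext1 a
    ext1 b
    ext1 c
    exact h a b c
  have h4 : A3 F m (g + rot (rot g) + rot g) = 0 := by rw [h3]; exact _root_.map_zero _
  rw [map_add, map_add, h2, h1] at h4
  have h5 : (3 : ℝ) • A3 F m g = 0 := by
    have h6 : (3 : ℝ) • A3 F m g = A3 F m g + A3 F m g + A3 F m g := by
      rw [show (3 : ℝ) = 1 + 1 + 1 by norm_num, add_smul, add_smul, one_smul]
    rw [h6, h4]
  exact (smul_eq_zero.1 h5).resolve_left (by norm_num)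

theorem power_deriv {w : F → F →L[ℝ] F →L[ℝ] ℝ} {w' : F →L[ℝ] F →L[ℝ] F →L[ℝ] ℝ} {x : F}
    (hw : HasFDerivAt w w' x) (h : ∀ a b c, w' a b c + w' b c a + w' c a b = 0) (k : ℕ) :
    ∃ D : F →L[ℝ] F [⋀^Fin (2 * k)]→L[ℝ] ℝ, HasFDerivAt (fun y => power (w y) k) D x ∧
      alternatizeUncurryFin D = 0 := by
  induction k with
  | zero =>
    refine ⟨0, hasFDerivAt_const _ _, ?_⟩
    exact map_zero (alternatizeUncurryFinCLM ℝ F ℝ)
  | succ k ih =>
    obtain ⟨D, hD, hD0⟩ := ih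
    have h1 : HasFDerivAt (fun y => T F (2 * k) (power (w y) k)) ((T F (2 * k)) ∘L D) x :=
      clm_deriv (A := F [⋀^Fin (2 * k)]→L[ℝ] ℝ) (B := (F →L[ℝ] F →L[ℝ] ℝ) →L[ℝ]
        (F →L[ℝ] F →L[ℝ] F [⋀^Fin (2 * k)]→L[ℝ] ℝ)) (C := F) (T F (2 * k)) hD
    have h2 := h1.clm_apply hw
    have h3 := clm_deriv (A := F →L[ℝ] F →L[ℝ] F [⋀^Fin (2 * k)]→L[ℝ] ℝ)
      (B := F [⋀^Fin (2 * k + 2)]→L[ℝ] ℝ) (C := F) (A2 F (2 * k)) h2
    refine ⟨_, h3, ?_⟩
    have e1 : A3 F (2 * k) (T F (2 * k) (power (w x) k) ∘L w') = 0 := by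
      refine A3_zero_of_cyc _ fun a b c => ?_
      show w' a b c • power (w x) k + w' b c a • power (w x) k + w' c a b • power (w x) k = 0
      rw [← add_smul, ← add_smul, h, zero_smul]
    let g : F →L[ℝ] F →L[ℝ] F →L[ℝ] F [⋀^Fin (2 * k)]→L[ℝ] ℝ :=
      ((T F (2 * k)) ∘L D).flip (w x)
    let g' : F →L[ℝ] F →L[ℝ] F →L[ℝ] F [⋀^Fin (2 * k)]→L[ℝ] ℝ :=
      (ContinuousLinearMap.smulRightL ℝ F (F →L[ℝ] F [⋀^Fin (2 * k)]→L[ℝ] ℝ)).flip D ∘L (w x)
    have e2 : A3 F (2 * k) g' = A3 F (2 * k) g := A3_cyc g g' fun a b c => rfl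
    have e3 : A3 F (2 * k) g' = 0 := by
      rw [A3_apply]
      have e4 : A2 F (2 * k) ∘L g' = 0 := by
        ext1 a
        show A2 F (2 * k) (g' a) = 0
        rw [A2_apply]
        have e5 : alternatizeUncurryFinCLM ℝ F ℝ ∘L g' a = 0 := by
          ext1 b
          show alternatizeUncurryFin (w x a b • D) = 0
          rw [alternatizeUncurryFin_smul, hD0, smul_zero]
        rw [e5]
        exact map_zero (alternatizeUncurryFinCLM ℝ F ℝ)
      rw [e4]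
      exact map_zero (alternatizeUncurryFinCLM ℝ F ℝ)
    have e6 : A3 F (2 * k) (T F (2 * k) (power (w x) k) ∘L w' + g) = 0 := by
      rw [map_add, e1, ← e2, e3, add_zero]
    exact e6

theorem power_contDiffOn {s : Set F} {w : F → F →L[ℝ] F →L[ℝ] ℝ} (hw : ContDiffOn ℝ ∞ w s)
    (k : ℕ) : ContDiffOn ℝ ∞ (fun y => power (w y) k) s := by
  induction k with
  | zero => exact contDiffOn_const
  | succ k ih =>
    have h1 : ContDiffOn ℝ ∞ (fun y => T F (2 * k) (power (w y) k)) s :=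
      clm_smooth (A := F [⋀^Fin (2 * k)]→L[ℝ] ℝ) (B := (F →L[ℝ] F →L[ℝ] ℝ) →L[ℝ]
        (F →L[ℝ] F →L[ℝ] F [⋀^Fin (2 * k)]→L[ℝ] ℝ)) (C := F) (T F (2 * k)) ih
    have h2 : ContDiffOn ℝ ∞ (fun y => T F (2 * k) (power (w y) k) (w y)) s := h1.clm_apply hw
    exact clm_smooth (A := F →L[ℝ] F →L[ℝ] F [⋀^Fin (2 * k)]→L[ℝ] ℝ)
      (B := F [⋀^Fin (2 * k + 2)]→L[ℝ] ℝ) (C := F) (A2 F (2 * k)) h2

theorem power_continuous {Z : Type*} [TopologicalSpace Z] {w : Z → F →L[ℝ] F →L[ℝ] ℝ}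
    (hw : Continuous w) (k : ℕ) : Continuous (fun y => power (w y) k) := by
  induction k with
  | zero => exact continuous_const
  | succ k ih =>
    have h1 : Continuous (fun y => T F (2 * k) (power (w y) k)) :=
      clm_cont (A := F [⋀^Fin (2 * k)]→L[ℝ] ℝ) (B := (F →L[ℝ] F →L[ℝ] ℝ) →L[ℝ]
        (F →L[ℝ] F →L[ℝ] F [⋀^Fin (2 * k)]→L[ℝ] ℝ)) (T F (2 * k)) ih
    have h2 : Continuous (fun y => T F (2 * k) (power (w y) k) (w y)) := h1.clm_apply hw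
    exact clm_cont (A := F →L[ℝ] F →L[ℝ] F [⋀^Fin (2 * k)]→L[ℝ] ℝ)
      (B := F [⋀^Fin (2 * k + 2)]→L[ℝ] ℝ) (A2 F (2 * k)) h2

end Pool.Agent.H24.FD
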