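import Pool.Agent.H24.FD.Pow

/-!
# Contraction of powers
-/

set_option autoImplicit false
set_option maxSynthPendingDepth 3

open ContinuousAlternatingMap
open scoped ContDiff

noncomputable section

namespace Pool.Agent.H24.FD

variable {F : Type*} [NormedAddCommGroup F] [NormedSpace ℝ F]

/-- contraction as a continuous linear map -/
def cL {m : ℕ} (v : F) : (F [⋀^Fin (m + 1)]→L[ℝ] ℝ) →L[ℝ] F [⋀^Fin m]→L[ℝ] ℝ :=
  (ContinuousLinearMap.apply ℝ (F [⋀^Fin m]→L[ℝ] ℝ) v) ∘L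
    (curryLeftLI (𝕜 := ℝ) (E := F) (F := ℝ) (n := m)).toContinuousLinearMap

theorem cL_apply {m : ℕ} (v : F) (α : F [⋀^Fin (m + 1)]→L[ℝ] ℝ) : cL v α = α.curryLeft v := rfl

theorem cL_apply' {m : ℕ} (v : F) (α : F [⋀^Fin (m + 1)]→L[ℝ] ℝ) (c : Fin m → F) :
    cL v α c = α (Matrix.vecCons v c) := rfl

theorem cL_alt {m : ℕ} (f : F →L[ℝ] F [⋀^Fin (m + 1)]→L[ℝ] ℝ) (v : F) :
    cL v (alternatizeUncurryFin f) = f v - alternatizeUncurryFin (cL v ∘L f) := by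
  ext c
  rw [cL_apply', curry_alt, ContinuousAlternatingMap.sub_apply, alternatizeUncurryFin_apply]
  rfl

theorem cL_alt_zero (f : F →L[ℝ] F [⋀^Fin 0]→L[ℝ] ℝ) (v : F) :
    cL v (alternatizeUncurryFin f) = f v := by
  ext c
  rw [cL_apply', alternatizeUncurryFin_apply]
  have h1 := Fin.sum_univ_one (fun i : Fin 1 => (-1) ^ (i : ℕ) •
    f (Matrix.vecCons v c i) (i.removeNth (Matrix.vecCons v c)))
  refine h1.trans ?_
  rw [Fin.val_zero, pow_zero, one_smul, Matrix.cons_val_zero]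
  congr 1

theorem cL_W {m : ℕ} (l : F →L[ℝ] ℝ) (α : F [⋀^Fin (m + 1)]→L[ℝ] ℝ) (v : F) :
    cL v (W l α) = l v • α - W l (cL v α) := by
  unfold W
  rw [cL_alt]
  have h1 : cL v ∘L l.smulRight α = l.smulRight (cL v α) := by
    ext1 u
    show cL v (l u • α) = l u • cL v α
    rw [map_smul]
  rw [h1]
  rfl

theorem cL_W_zero (l : F →L[ℝ] ℝ) (α : F [⋀^Fin 0]→L[ℝ] ℝ) (v : F) :
    cL v (W l α) = l v • α := by
  unfold W
  rw [cL_alt_zero]
  rfl

theorem W_smul {m : ℕ} (l : F →L[ℝ] ℝ) (c : ℝ) (α : F [⋀^Fin m]→L[ℝ] ℝ) :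
    W l (c • α) = c • W l α := by
  unfold W
  rw [← alternatizeUncurryFin_smul]
  congr 1
  ext1 u
  show l u • c • α = c • l u • α
  rw [smul_comm]

theorem wedge_smul {m : ℕ} (w : F →L[ℝ] F →L[ℝ] ℝ) (c : ℝ) (α : F [⋀^Fin m]→L[ℝ] ℝ) :
    wedge w (c • α) = c • wedge w α := by
  rw [wedge_eq, wedge_eq, map_smul]
  exact map_smul (A2 F m) c (T F m α w)

theorem cL_wedge {m : ℕ} (w : F →L[ℝ] F →L[ℝ] ℝ) (hw : ∀ u v, w u v = - w v u)
    (α : F [⋀^Fin (m + 1)]→L[ℝ] ℝ) (v : F) :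
    cL v (wedge w α) = (2 : ℝ) • W (w v) α + wedge w (cL v α) := by
  unfold wedge
  rw [cL_alt]
  have h1 : (cL v ∘L (alternatizeUncurryFinCLM ℝ F ℝ ∘L
      ((ContinuousLinearMap.smulRightL ℝ F (F [⋀^Fin (m + 1)]→L[ℝ] ℝ)).flip α ∘L w))) =
      - (w v).smulRight α - (alternatizeUncurryFinCLM ℝ F ℝ ∘L
      ((ContinuousLinearMap.smulRightL ℝ F (F [⋀^Fin m]→L[ℝ] ℝ)).flip (cL v α) ∘L w)) := by
    ext1 u
    show cL v (W (w u) α) = - (w v u • α) - W (w u) (cL v α)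
    rw [cL_W, hw u v, neg_smul]
  rw [h1]
  have h2 : alternatizeUncurryFin (- (w v).smulRight α - (alternatizeUncurryFinCLM ℝ F ℝ ∘L
      ((ContinuousLinearMap.smulRightL ℝ F (F [⋀^Fin m]→L[ℝ] ℝ)).flip (cL v α) ∘L w))) =
      - W (w v) α - alternatizeUncurryFin ((alternatizeUncurryFinCLM ℝ F ℝ ∘L
      ((ContinuousLinearMap.smulRightL ℝ F (F [⋀^Fin m]→L[ℝ] ℝ)).flip (cL v α) ∘L w))) := by
    have := map_sub (alternatizeUncurryFinCLM ℝ F ℝ) (- (w v).smulRight α)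
      (alternatizeUncurryFinCLM ℝ F ℝ ∘L
      ((ContinuousLinearMap.smulRightL ℝ F (F [⋀^Fin m]→L[ℝ] ℝ)).flip (cL v α) ∘L w))
    rw [map_neg] at this
    exact this
  rw [h2]
  show W (w v) α - _ = _
  rw [two_smul]
  abel

theorem cL_wedge_zero (w : F →L[ℝ] F →L[ℝ] ℝ) (hw : ∀ u v, w u v = - w v u)
    (α : F [⋀^Fin 0]→L[ℝ] ℝ) (v : F) :
    cL v (wedge w α) = (2 : ℝ) • W (w v) α := by
  unfold wedge
  rw [cL_alt]
  have h1 : (cL v ∘L (alternatizeUncurryFinCLM ℝ F ℝ ∘L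
      ((ContinuousLinearMap.smulRightL ℝ F (F [⋀^Fin 0]→L[ℝ] ℝ)).flip α ∘L w))) =
      - (w v).smulRight α := by
    ext1 u
    show cL v (W (w u) α) = - (w v u • α)
    rw [cL_W_zero, hw u v, neg_smul]
  rw [h1]
  have h2 : alternatizeUncurryFin (- (w v).smulRight α) = - W (w v) α :=
    map_neg (alternatizeUncurryFinCLM ℝ F ℝ) ((w v).smulRight α)
  rw [h2]
  show W (w v) α - _ = _
  rw [two_smul]
  abel

/-- `2 w ∧ (l ∧ α) = l ∧ (2 w ∧ α)` -/
theorem wedge_W {m : ℕ} (w : F →L[ℝ] F →L[ℝ] ℝ) (l : F →L[ℝ] ℝ) (α : F [⋀^Fin m]→L[ℝ] ℝ) :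
    wedge w (W l α) = W l (wedge w α) := by
  let f2 : F →L[ℝ] F →L[ℝ] F →L[ℝ] F [⋀^Fin m]→L[ℝ] ℝ := l.smulRight (T F m α w)
  let f1 : F →L[ℝ] F →L[ℝ] F →L[ℝ] F [⋀^Fin m]→L[ℝ] ℝ :=
    (ContinuousLinearMap.smulRightL ℝ F (F →L[ℝ] F [⋀^Fin m]→L[ℝ] ℝ)).flip (l.smulRight α) ∘L w
  have h1 : A3 F m f1 = A3 F m f2 := A3_cyc f2 f1 fun a b c => by
    show w a b • l c • α = l c • w a b • α
    rw [smul_comm]
  have h2 : W l (wedge w α) = A3 F m f2 := by
    rw [A3_apply]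
    unfold W
    congr 1
    ext1 a
    show l a • wedge w α = A2 F m (l a • T F m α w)
    rw [map_smul, wedge_eq]
  have h3 : wedge w (W l α) = A3 F m f1 := by
    rw [A3_apply]
    unfold wedge
    congr 1
    ext1 a
    show alternatizeUncurryFin ((w a).smulRight (W l α)) = A2 F m (f1 a)
    rw [A2_apply]
    congr 1
    ext1 b
    show w a b • W l α = alternatizeUncurryFin (w a b • (l.smulRight α))
    rw [alternatizeUncurryFin_smul]
    rfl
  rw [h2, h3, h1]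

/-- contraction of a power -/
theorem cL_power (w : F →L[ℝ] F →L[ℝ] ℝ) (hw : ∀ u v, w u v = - w v u) (v : F) (k : ℕ) :
    cL (m := 2 * k + 1) v (power w (k + 1)) = (2 * ((k : ℝ) + 1)) • W (w v) (power w k) := by
  induction k with
  | zero =>
    have h1 := cL_wedge_zero w hw (constOfIsEmpty ℝ F (Fin 0) 1) v
    have h2 : (2 * (((0 : ℕ) : ℝ) + 1)) = 2 := by norm_num
    rw [h2]
    exact h1
  | succ k ih =>
    have h1 := cL_wedge w hw (m := 2 * k + 1) (power w (k + 1)) v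
    have h2 : cL (m := 2 * (k + 1) + 1) v (power w (k + 1 + 1)) =
        (2 : ℝ) • W (w v) (power w (k + 1)) + wedge w (cL (m := 2 * k + 1) v (power w (k + 1))) := h1
    rw [h2, ih, wedge_smul, wedge_W]
    show (2 : ℝ) • W (w v) (power w (k + 1)) + (2 * ((k : ℝ) + 1)) • W (w v) (power w (k + 1)) = _
    rw [← add_smul]
    congr 1
    push_cast
    ring

theorem W_apply {m : ℕ} (l : F →L[ℝ] ℝ) (α : F [⋀^Fin m]→L[ℝ] ℝ) (v : Fin (m + 1) → F) :
    W l α v = ∑ i : Fin (m + 1), (-1) ^ (i : ℕ) • (l (v i) • α (i.removeNth v)) := by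
  unfold W
  rw [alternatizeUncurryFin_apply]
  rfl

/-- the power on a tuple whose first vector is orthogonal to all but the second -/
theorem power_cons (w : F →L[ℝ] F →L[ℝ] ℝ) (hw : ∀ u v, w u v = - w v u) (k : ℕ) (u v : F)
    (c : Fin (2 * k) → F) (h : ∀ i, w u (c i) = 0) :
    power w (k + 1) (Matrix.vecCons u (Matrix.vecCons v c) : Fin (2 * k + 1 + 1) → F) =
      2 * ((k : ℝ) + 1) * w u v * power w k c := by
  have h1 : power w (k + 1) (Matrix.vecCons u (Matrix.vecCons v c) : Fin (2 * k + 1 + 1) → F) =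
      cL (m := 2 * k + 1) u (power w (k + 1)) (Matrix.vecCons v c) := rfl
  rw [h1, cL_power w hw]
  show (2 * ((k : ℝ) + 1)) • (W (w u) (power w k) (Matrix.vecCons v c)) = _
  rw [W_apply, Fin.sum_univ_succ]
  have h2 : (0 : Fin (2 * k + 1)).removeNth (Matrix.vecCons v c) = c := by
    funext i
    simp [Fin.removeNth]
  have h3 : ∑ i : Fin (2 * k), (-1) ^ ((i.succ : Fin (2 * k + 1)) : ℕ) •
      (w u (Matrix.vecCons v c i.succ) • power w k (i.succ.removeNth (Matrix.vecCons v c))) = 0 := by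
    refine Finset.sum_eq_zero fun i _ => ?_
    rw [Matrix.cons_val_succ, h i, zero_smul, smul_zero]
  rw [h3, h2]
  simp only [Fin.val_zero, pow_zero, one_smul, Matrix.cons_val_zero, add_zero, smul_eq_mul]
  ring

/-- naturality -/
theorem wedge_comp {F' : Type*} [NormedAddCommGroup F'] [NormedSpace ℝ F'] {m : ℕ}
    (w : F →L[ℝ] F →L[ℝ] ℝ) (w' : F' →L[ℝ] F' →L[ℝ] ℝ) (L : F' →L[ℝ] F)
    (h : ∀ u v, w' u v = w (L u) (L v)) (α : F [⋀^Fin m]→L[ℝ] ℝ) (α' : F' [⋀^Fin m]→L[ℝ] ℝ)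
    (hα : ∀ c, α' c = α (L ∘ c)) (c : Fin (m + 2) → F') :
    wedge w' α' c = wedge w α (L ∘ c) := by
  unfold wedge
  rw [alternatizeUncurryFin_apply, alternatizeUncurryFin_apply]
  refine Finset.sum_congr rfl fun i _ => ?_
  congr 1
  show alternatizeUncurryFin ((w' (c i)).smulRight α') (i.removeNth c) =
    alternatizeUncurryFin ((w (L (c i))).smulRight α) (i.removeNth (L ∘ c))
  rw [alternatizeUncurryFin_apply, alternatizeUncurryFin_apply]
  refine Finset.sum_congr rfl fun j _ => ?_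
  congr 1
  show w' (c i) (i.removeNth c j) • α' (j.removeNth (i.removeNth c)) =
    w (L (c i)) (i.removeNth (L ∘ c) j) • α (j.removeNth (i.removeNth (L ∘ c)))
  rw [h, hα]
  rfl

theorem power_comp {F' : Type*} [NormedAddCommGroup F'] [NormedSpace ℝ F']
    (w : F →L[ℝ] F →L[ℝ] ℝ) (w' : F' →L[ℝ] F' →L[ℝ] ℝ) (L : F' →L[ℝ] F)
    (h : ∀ u v, w' u v = w (L u) (L v)) (k : ℕ) (c : Fin (2 * k) → F') :
    power w' k c = power w k (L ∘ c) := by
  induction k with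
  | zero => rfl
  | succ k ih => exact wedge_comp w w' L h (power w k) (power w' k) ih c

end Pool.Agent.H24.FD
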