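import Pool.Agent.H24.FD.Ctr
import Pool.Graph.R_pool_sql_team_seeded_ab47071d.TH242.TI.Lin

/-!
# Powers of nondegenerate forms, and of forms which tame a fibred endomorphism
-/

set_option autoImplicit false
set_option maxSynthPendingDepth 3

open ContinuousAlternatingMap
open scoped ContDiff

noncomputable section

namespace Pool.Agent.H24.FD

open Pool.Agent.TH242.TI

variable {F : Type*} [NormedAddCommGroup F] [NormedSpace ℝ F]

theorem anti_of_alt {w : F →L[ℝ] F →L[ℝ] ℝ} (hw : ∀ u, w u u = 0) (u v : F) :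
    w u v = - w v u := by
  have h1 := hw (u + v)
  have h2 : w (u + v) (u + v) = w u u + w u v + (w v u + w v v) := by
    have h3 : w (u + v) = w u + w v := _root_.map_add w u v
    rw [h3]
    show w u (u + v) + w v (u + v) = _
    rw [_root_.map_add, _root_.map_add]
  rw [h2, hw, hw] at h1
  linarith

theorem exists_tuple {w : F →L[ℝ] F →L[ℝ] ℝ} (hw : ∀ u, w u u = 0) (k : ℕ) :
    ∀ (S : Submodule ℝ F), Module.finrank ℝ S = 2 * k → FiniteDimensional ℝ S →
      (∀ u ∈ S, u ≠ 0 → ∃ v ∈ S, w u v ≠ 0) →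
      ∃ c : Fin (2 * k) → F, (∀ i, c i ∈ S) ∧ power w k c ≠ 0 := by
  induction k with
  | zero =>
    intro S _ _ _
    refine ⟨fun i => 0, fun i => S.zero_mem, ?_⟩
    show (1 : ℝ) ≠ 0
    exact one_ne_zero
  | succ k ih =>
    intro S hS hfd hn
    have h0 : 0 < Module.finrank ℝ S := by omega
    obtain ⟨⟨u, hu⟩, hu0⟩ := (Module.finrank_pos_iff_exists_ne_zero (R := ℝ) (M := S)).1 h0
    have hu1 : u ≠ 0 := fun h => hu0 (Subtype.ext h)
    obtain ⟨v, hv, huv⟩ := hn u hu hu1
    let φ : S →ₗ[ℝ] ℝ × ℝ := ((w u : F →ₗ[ℝ] ℝ).prod (w v : F →ₗ[ℝ] ℝ)) ∘ₗ S.subtype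
    have hφ : ∀ z : S, φ z = (w u z, w v z) := fun z => rfl
    have hsurj : Function.Surjective φ := by
      rintro ⟨a, b⟩
      have hvu : w v u = - w u v := anti_of_alt hw v u
      refine ⟨(a / w u v) • ⟨v, hv⟩ - (b / w u v) • ⟨u, hu⟩, ?_⟩
      rw [hφ]
      have h1 : w u ((a / w u v) • v - (b / w u v) • u) = a := by
        rw [map_sub, _root_.map_smul, _root_.map_smul, hw u, smul_zero, sub_zero, smul_eq_mul,
          div_mul_cancel₀ _ huv]
      have h2 : w v ((a / w u v) • v - (b / w u v) • u) = b := by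
        rw [map_sub, _root_.map_smul, _root_.map_smul, hw v, hvu, smul_zero, zero_sub, smul_eq_mul,
          mul_neg, neg_neg, div_mul_cancel₀ _ huv]
      exact Prod.ext h1 h2
    have hrank := LinearMap.finrank_range_add_finrank_ker φ
    rw [LinearMap.range_eq_top.2 hsurj, finrank_top, hS] at hrank
    have hr2 : Module.finrank ℝ (ℝ × ℝ) = 2 := by simp
    rw [hr2] at hrank
    have hker : Module.finrank ℝ (LinearMap.ker φ) = 2 * k := by omega
    obtain ⟨c, hc, hcn⟩ := ih ((LinearMap.ker φ).map S.subtype)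
      (by rw [Submodule.finrank_map_subtype_eq]; exact hker) inferInstance (by
        rintro _ ⟨⟨z, hz⟩, hz1, rfl⟩ hz0
        have hz2 : w u z = 0 ∧ w v z = 0 := by
          have : φ ⟨z, hz⟩ = 0 := hz1
          rw [hφ] at this
          exact ⟨congrArg Prod.fst this, congrArg Prod.snd this⟩
        obtain ⟨y, hy, hzy⟩ := hn z hz hz0
        have hvu : w v u = - w u v := anti_of_alt hw v u
        have hzu : w z u = 0 := by rw [anti_of_alt hw z u, hz2.1, neg_zero]
        have hzv : w z v = 0 := by rw [anti_of_alt hw z v, hz2.2, neg_zero]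
        refine ⟨y - (w u y / w u v) • v + (w v y / w u v) • u, ?_, ?_⟩
        · refine ⟨⟨y - (w u y / w u v) • v + (w v y / w u v) • u,
            S.add_mem (S.sub_mem hy (S.smul_mem _ hv)) (S.smul_mem _ hu)⟩, ?_, rfl⟩
          show φ _ = 0
          rw [hφ]
          have h1 : w u (y - (w u y / w u v) • v + (w v y / w u v) • u) = 0 := by
            rw [_root_.map_add, map_sub, _root_.map_smul, _root_.map_smul, hw u]
            simp only [smul_eq_mul]
            field_simp
            ring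
          have h2 : w v (y - (w u y / w u v) • v + (w v y / w u v) • u) = 0 := by
            rw [_root_.map_add, map_sub, _root_.map_smul, _root_.map_smul, hw v, hvu]
            simp only [smul_eq_mul]
            field_simp
            ring
          exact Prod.ext h1 h2
        · show w z (y - (w u y / w u v) • v + (w v y / w u v) • u) ≠ 0
          rw [_root_.map_add, map_sub, _root_.map_smul, _root_.map_smul, hzu, hzv]
          simpa using hzy)
    refine ⟨(Matrix.vecCons u (Matrix.vecCons v c) : Fin (2 * k + 1 + 1) → F), ?_, ?_⟩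
    · intro i
      refine Fin.cases ?_ (fun i => ?_) (i : Fin (2 * k + 1 + 1))
      · exact hu
      · refine Fin.cases ?_ (fun i => ?_) i
        · exact hv
        · obtain ⟨⟨z, hz⟩, -, hz2⟩ := hc i
          show c i ∈ S
          rw [← hz2]
          exact hz
    · rw [power_cons w (anti_of_alt hw) k u v c]
      · positivity
      · intro i
        obtain ⟨⟨z, hz⟩, hz1, hz2⟩ := hc i
        have : φ ⟨z, hz⟩ = 0 := hz1
        rw [hφ] at this
        rw [← hz2]
        exact congrArg Prod.fst this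

/-- the top power of a nondegenerate form does not vanish on a basis -/
theorem power_basis_ne {V : Type*} [NormedAddCommGroup V] [NormedSpace ℝ V] {k : ℕ}
    (b : Module.Basis (Fin (2 * k)) ℝ V) {w : V →L[ℝ] V →L[ℝ] ℝ} (hw : ∀ u, w u u = 0)
    (hn : ND w) : power w k b ≠ 0 := by
  have hfd : FiniteDimensional ℝ V := b.finiteDimensional_of_finite
  obtain ⟨c, -, hc⟩ := exists_tuple hw k ⊤ (by rw [finrank_top, Module.finrank_eq_card_basis b,
    Fintype.card_fin]) inferInstance (fun u _ hu => by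
      obtain ⟨v, hv⟩ := hn u hu
      exact ⟨v, trivial, hv⟩)
  intro h0
  apply hc
  have h1 := AlternatingMap.eq_smul_basis_det b (power w k).toAlternatingMap
  have h2 : (power w k).toAlternatingMap b = 0 := h0
  rw [h2, zero_smul] at h1
  exact congrArg (fun f : V [⋀^Fin (2 * k)]→ₗ[ℝ] ℝ => f c) h1

section

variable {E V : Type*} [NormedAddCommGroup E] [NormedSpace ℝ E]
  [NormedAddCommGroup V] [NormedSpace ℝ V]

/-- the tuple of vertical vectors of a basis -/
def vb (E : Type*) [NormedAddCommGroup E] {k : ℕ} (b : Fin (2 * k) → V) : Fin (2 * k) → E × V :=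
  fun i => (0, b i)

/-- the restriction of a bilinear form to the vertical vectors -/
def vert (w : (E × V) →L[ℝ] (E × V) →L[ℝ] ℝ) : V →L[ℝ] V →L[ℝ] ℝ :=
  w.bilinearComp (ContinuousLinearMap.inr ℝ E V) (ContinuousLinearMap.inr ℝ E V)

theorem vert_apply (w : (E × V) →L[ℝ] (E × V) →L[ℝ] ℝ) (u v : V) :
    vert w u v = w (0, u) (0, v) := rfl

theorem power_vert (w : (E × V) →L[ℝ] (E × V) →L[ℝ] ℝ) {k : ℕ} (b : Fin (2 * k) → V) :
    power (vert w) k b = power w k (vb E b) :=
  power_comp w (vert w) (ContinuousLinearMap.inr ℝ E V) (fun u v => rfl) k b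

/-- the number `w ^ (k + 1) (u, v, b)`, up to a factor -/
def fib {k : ℕ} (b : Fin (2 * k) → V) (w : (E × V) →L[ℝ] (E × V) →L[ℝ] ℝ) (u v : E) : ℝ :=
  power w (k + 1) (Matrix.vecCons (u, 0) (Matrix.vecCons (v, 0) (vb E b)) :
    Fin (2 * k + 1 + 1) → E × V)

theorem vert_nd {w : (E × V) →L[ℝ] (E × V) →L[ℝ] ℝ} {J : E × V → E × V} {j : E → E}
    (hj0 : j 0 = 0) (hJ : ∀ z, z ≠ 0 → 0 < w z (J z)) (hj : ∀ z, (J z).1 = j z.1) :
    ND (vert w) := by
  intro v hv
  have h1 : ((0 : E), v) ≠ 0 := fun h => hv (congrArg Prod.snd h)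
  refine ⟨(J (0, v)).2, ?_⟩
  rw [vert_apply]
  have h2 : ((0 : E), (J (0, v)).2) = J (0, v) := by
    refine Prod.ext ?_ rfl
    rw [hj]
    exact hj0.symm
  rw [h2]
  exact (hJ _ h1).ne'

theorem fib_pos {k : ℕ} (b : Module.Basis (Fin (2 * k)) ℝ V)
    {w : (E × V) →L[ℝ] (E × V) →L[ℝ] ℝ} (hw : ∀ u, w u u = 0)
    {J : E × V → E × V} {j : E → E} (hj0 : j 0 = 0)
    (hJ : ∀ z, z ≠ 0 → 0 < w z (J z)) (hj : ∀ z, (J z).1 = j z.1) {u : E} (hu : u ≠ 0) :
    0 < fib b w u (j u) * power w k (vb E b) := by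
  have hfd : FiniteDimensional ℝ V := b.finiteDimensional_of_finite
  have hnd : ND (vert w) := vert_nd hj0 hJ hj
  have hvw : ∀ v, vert w v v = 0 := fun v => hw _
  obtain ⟨e, he⟩ := hnd.equiv
  obtain ⟨p, hp⟩ : ∃ p : V, ∀ v : V, w (0, p) (0, v) = w (u, 0) (0, v) := by
    refine ⟨e.symm ((w (u, 0)).comp (ContinuousLinearMap.inr ℝ E V)), fun v => ?_⟩
    rw [← vert_apply, ← he]
    show e (e.symm _) v = _
    rw [ContinuousLinearEquiv.apply_symm_apply]
    rfl
  have hU : ∀ v : V, w (u, -p) (0, v) = 0 := by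
    intro v
    have h1 : ((u, -p) : E × V) = (u, 0) - (0, p) := by simp
    rw [h1, map_sub]
    show w (u, 0) (0, v) - w (0, p) (0, v) = 0
    rw [hp, sub_self]
  have hne : ((u, -p) : E × V) ≠ 0 := fun h => hu (congrArg Prod.fst h)
  have h2 : w (u, -p) (j u, 0) = w (u, -p) (J (u, -p)) := by
    have h3 : J (u, -p) = (j u, 0) + (0, (J (u, -p)).2) := by
      refine Prod.ext ?_ ?_
      · rw [hj]
        simp
      · simp
    rw [h3, _root_.map_add, hU, add_zero]
  have h4 : fib b w u (j u) = power w (k + 1)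
      (Matrix.vecCons (u, -p) (Matrix.vecCons (j u, 0) (vb E b)) : Fin (2 * k + 1 + 1) → E × V) := by
    have h5 : ((u, 0) : E × V) = (u, -p) + (0, p) := by simp
    have h6 : ∀ z : E × V, power w (k + 1) (Matrix.vecCons z (Matrix.vecCons (j u, 0) (vb E b)) :
        Fin (2 * k + 1 + 1) → E × V) =
        ((power w (k + 1) : (E × V) [⋀^Fin (2 * k + 1 + 1)]→L[ℝ] ℝ).curryLeft z)
          (Matrix.vecCons (j u, 0) (vb E b)) := fun z => rfl
    unfold fib
    rw [h6, h6, h5, _root_.map_add, ContinuousAlternatingMap.add_apply]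
    have h7 : ((power w (k + 1) : (E × V) [⋀^Fin (2 * k + 1 + 1)]→L[ℝ] ℝ).curryLeft (0, p))
          (Matrix.vecCons (j u, 0) (vb E b)) = 0 := by
      have h8 : ((0 : E), p) = ∑ i, b.repr p i • vb E b i := by
        have h9 : (ContinuousLinearMap.inr ℝ E V) p =
            (ContinuousLinearMap.inr ℝ E V) (∑ i, b.repr p i • b i) := by rw [b.sum_repr]
        rw [_root_.map_sum] at h9
        refine h9.trans (Finset.sum_congr rfl fun i _ => ?_)
        rw [_root_.map_smul]
        rfl
      rw [h8, _root_.map_sum, ContinuousAlternatingMap.sum_apply]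
      refine Finset.sum_eq_zero fun i _ => ?_
      rw [_root_.map_smul, ContinuousAlternatingMap.smul_apply, ← h6]
      have h10 : power w (k + 1) (Matrix.vecCons (vb E b i) (Matrix.vecCons (j u, 0) (vb E b)) :
        Fin (2 * k + 1 + 1) → E × V) = 0 :=
        ContinuousAlternatingMap.map_eq_zero_of_eq _ _ (i := 0) (j := i.succ.succ) rfl
          (Fin.succ_ne_zero _).symm
      rw [h10, smul_zero]
    rw [h7, add_zero]
  rw [h4, power_cons w (anti_of_alt hw) k (u, -p) (j u, 0) (vb E b) (fun i => hU (b i)), h2]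
  have h11 := hJ _ hne
  have h12 : power w k (vb E b) ≠ 0 := by
    rw [← power_vert]
    exact power_basis_ne b hvw hnd
  have h13 : 0 < power w k (vb E b) * power w k (vb E b) := mul_self_pos.2 h12
  have h14 : 2 * ((k : ℝ) + 1) * w (u, -p) (J (u, -p)) * power w k (vb E b) *
      power w k (vb E b) = 2 * ((k : ℝ) + 1) * w (u, -p) (J (u, -p)) *
        (power w k (vb E b) * power w k (vb E b)) := by ring
  rw [h14]
  positivity

end

end Pool.Agent.H24.FD
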