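import Pool.Agent.H24.FD.Clo
import Pool.Agent.H24.FD.Nd
import Pool.Agent.H24.FD.Av

/-!
# Fibre integrals of powers
-/

set_option autoImplicit false
set_option maxSynthPendingDepth 3

open ContinuousAlternatingMap Set
open scoped ContDiff

noncomputable section

namespace Pool.Agent.H24.FD

variable {E V : Type*} [NormedAddCommGroup E] [NormedSpace ℝ E]
  [NormedAddCommGroup V] [NormedSpace ℝ V]

/-- contraction of a form with two horizontal vectors and a tuple of vectors -/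
def fibL1 {m : ℕ} (c : Fin m → E × V) : ((E × V) [⋀^Fin (m + 1)]→L[ℝ] ℝ) →L[ℝ] (E →L[ℝ] ℝ) :=
  ((ContinuousLinearMap.compL ℝ E (E × V) ℝ).flip (ContinuousLinearMap.inl ℝ E V)) ∘L
    (ContinuousLinearMap.compL ℝ (E × V) ((E × V) [⋀^Fin m]→L[ℝ] ℝ) ℝ
      (ContinuousAlternatingMap.apply ℝ (E × V) ℝ c)) ∘L
    (curryLeftLI (𝕜 := ℝ) (E := E × V) (F := ℝ) (n := m)).toContinuousLinearMap

theorem fibL1_apply {m : ℕ} (c : Fin m → E × V) (α : (E × V) [⋀^Fin (m + 1)]→L[ℝ] ℝ) (v : E) :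
    fibL1 c α v = α (Matrix.vecCons (v, 0) c) := rfl

def fibL {m : ℕ} (c : Fin m → E × V) :
    ((E × V) [⋀^Fin (m + 1 + 1)]→L[ℝ] ℝ) →L[ℝ] (E →L[ℝ] E →L[ℝ] ℝ) :=
  ((ContinuousLinearMap.compL ℝ E (E × V) (E →L[ℝ] ℝ)).flip (ContinuousLinearMap.inl ℝ E V)) ∘L
    (ContinuousLinearMap.compL ℝ (E × V) ((E × V) [⋀^Fin (m + 1)]→L[ℝ] ℝ) (E →L[ℝ] ℝ)
      (fibL1 c)) ∘L
    (curryLeftLI (𝕜 := ℝ) (E := E × V) (F := ℝ) (n := m + 1)).toContinuousLinearMap

theorem fibL_apply {m : ℕ} (c : Fin m → E × V) (α : (E × V) [⋀^Fin (m + 1 + 1)]→L[ℝ] ℝ)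
    (u v : E) : fibL c α u v = α (Matrix.vecCons (u, 0) (Matrix.vecCons (v, 0) c)) := rfl

/-- the contracted power -/
def qf {k : ℕ} (b : Fin (2 * k) → V) (w : (E × V) →L[ℝ] (E × V) →L[ℝ] ℝ) : E →L[ℝ] E →L[ℝ] ℝ :=
  fibL (vb E b) (power w (k + 1))

theorem qf_apply {k : ℕ} (b : Fin (2 * k) → V) (w : (E × V) →L[ℝ] (E × V) →L[ℝ] ℝ) (u v : E) :
    qf b w u v = fib b w u v := rfl

theorem qf_alt {k : ℕ} (b : Fin (2 * k) → V) (w : (E × V) →L[ℝ] (E × V) →L[ℝ] ℝ) (u : E) :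
    qf b w u u = 0 :=
  ContinuousAlternatingMap.map_eq_zero_of_eq (power w (k + 1) :
    (E × V) [⋀^Fin (2 * k + 1 + 1)]→L[ℝ] ℝ) _ (i := 0) (j := 1) rfl (by simp)

theorem qf_smooth {k : ℕ} (b : Fin (2 * k) → V) {s : Set (E × V)}
    {w : E × V → (E × V) →L[ℝ] (E × V) →L[ℝ] ℝ} (hw : ContDiffOn ℝ ∞ w s) :
    ContDiffOn ℝ ∞ (fun p => qf b (w p)) s :=
  clm_smooth (A := (E × V) [⋀^Fin (2 * k + 1 + 1)]→L[ℝ] ℝ) (B := E →L[ℝ] E →L[ℝ] ℝ)
    (C := E × V) (fibL (vb E b)) (power_contDiffOn hw (k + 1))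

/-- naturality -/
theorem fib_map {k : ℕ} (b : Fin (2 * k) → V) (w w' : (E × V) →L[ℝ] (E × V) →L[ℝ] ℝ)
    (A : E →L[ℝ] E) (h : ∀ u v : E × V, w u v = w' (A u.1, u.2) (A v.1, v.2)) (u v : E) :
    fib b w u v = fib b w' (A u) (A v) := by
  unfold fib
  rw [power_comp w' w (A.prodMap (ContinuousLinearMap.id ℝ V)) h]
  congr 1
  funext i
  refine Fin.cases ?_ (fun i => ?_) (i : Fin (2 * k + 1 + 1))
  · rfl
  · refine Fin.cases ?_ (fun i => ?_) i
    · rfl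
    · show (A.prodMap (ContinuousLinearMap.id ℝ V)) (0, b i) = (0, b i)
      refine Prod.ext ?_ rfl
      exact _root_.map_zero A

/-- the swap of the first two vectors -/
theorem swap_two {m : ℕ} (α : (E × V) [⋀^Fin (m + 1 + 1)]→L[ℝ] ℝ) (u v : E × V)
    (c : Fin m → E × V) : α (Matrix.vecCons u (Matrix.vecCons v c)) =
      - α (Matrix.vecCons v (Matrix.vecCons u c)) := by
  have h0 : ∀ z, α (Matrix.vecCons z (Matrix.vecCons z c)) = 0 := fun z =>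
    α.map_eq_zero_of_eq _ (i := 0) (j := 1) rfl (by simp)
  have h1 : ∀ y z, α (Matrix.vecCons y (Matrix.vecCons z c)) = (α.curryLeft y).curryLeft z c :=
    fun y z => rfl
  have h2 := h0 (u + v)
  have h3 : α.curryLeft (u + v) = α.curryLeft u + α.curryLeft v := _root_.map_add _ _ _
  have h4 : ∀ y : E × V, (α.curryLeft y).curryLeft (u + v) =
      (α.curryLeft y).curryLeft u + (α.curryLeft y).curryLeft v := fun y => _root_.map_add _ _ _
  have h5 : (α.curryLeft u + α.curryLeft v).curryLeft (u + v) =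
      (α.curryLeft u).curryLeft (u + v) + (α.curryLeft v).curryLeft (u + v) := rfl
  rw [h1, h3, h5, h4, h4] at h2
  simp only [ContinuousAlternatingMap.add_apply] at h2
  rw [← h1, ← h1, ← h1, ← h1, h0, h0] at h2
  linarith

theorem rem_zero {A : Type*} {m : ℕ} (a : A) (c : Fin m → A) :
    (0 : Fin (m + 1)).removeNth (Matrix.vecCons a c) = c := by
  funext i
  simp [Fin.removeNth]

theorem rem_succ {A : Type*} {m : ℕ} (a : A) (c : Fin (m + 1) → A) (j : Fin (m + 1)) :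
    (j.succ).removeNth (Matrix.vecCons a c) = Matrix.vecCons a (j.removeNth c) := by
  funext i
  refine Fin.cases ?_ (fun i => ?_) i
  · simp [Fin.removeNth]
  · simp [Fin.removeNth]

theorem closed_point {k : ℕ} (b : Fin (2 * k) → V) {w : E × V → (E × V) →L[ℝ] (E × V) →L[ℝ] ℝ}
    {w' : (E × V) →L[ℝ] (E × V) →L[ℝ] (E × V) →L[ℝ] ℝ} {p : E × V}
    (hw : HasFDerivAt w w' p) (h : ∀ a b c, w' a b c + w' b c a + w' c a b = 0) (u v z : E) :
    fderiv ℝ (fun q => qf b (w q)) p (u, 0) v z + fderiv ℝ (fun q => qf b (w q)) p (v, 0) z u +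
      fderiv ℝ (fun q => qf b (w q)) p (z, 0) u v =
      ∑ j : Fin (2 * k), (-1) ^ (j : ℕ) * fderiv ℝ (fun q => power (w q) (k + 1)
        ((j.succ.succ.succ).removeNth (Matrix.vecCons (u, 0) (Matrix.vecCons (v, 0)
          (Matrix.vecCons (z, 0) (vb E b)))) : Fin (2 * k + 1 + 1) → E × V)) p (0, b j) := by
  obtain ⟨D, hD, hD0⟩ := power_deriv hw h (k + 1)
  have h1 : fderiv ℝ (fun q => qf b (w q)) p = fibL (vb E b) ∘L
      (D : (E × V) →L[ℝ] (E × V) [⋀^Fin (2 * k + 1 + 1)]→L[ℝ] ℝ) :=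
    (clm_deriv (A := (E × V) [⋀^Fin (2 * k + 1 + 1)]→L[ℝ] ℝ) (B := E →L[ℝ] E →L[ℝ] ℝ)
      (C := E × V) (fibL (vb E b)) hD).fderiv
  have h2 : ∀ c : Fin (2 * k + 1 + 1) → E × V, fderiv ℝ (fun q => power (w q) (k + 1) c) p =
      (ContinuousAlternatingMap.apply ℝ (E × V) ℝ c) ∘L
        (D : (E × V) →L[ℝ] (E × V) [⋀^Fin (2 * k + 1 + 1)]→L[ℝ] ℝ) := fun c =>
    (clm_deriv (A := (E × V) [⋀^Fin (2 * k + 1 + 1)]→L[ℝ] ℝ) (B := ℝ)
      (C := E × V) (ContinuousAlternatingMap.apply ℝ (E × V) ℝ c) hD).fderiv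
  set Z : Fin (2 * k + 1 + 1 + 1) → E × V := Matrix.vecCons (u, 0) (Matrix.vecCons (v, 0)
          (Matrix.vecCons (z, 0) (vb E b))) with hZ
  let D' : (E × V) →L[ℝ] (E × V) [⋀^Fin (2 * k + 1 + 1)]→L[ℝ] ℝ := D
  have h3 : (alternatizeUncurryFin D' : (E × V) [⋀^Fin (2 * k + 1 + 1 + 1)]→L[ℝ] ℝ) Z = 0 := by
    have : alternatizeUncurryFin D' = 0 := hD0
    rw [this]
    rfl
  rw [alternatizeUncurryFin_apply, Fin.sum_univ_succ, Fin.sum_univ_succ, Fin.sum_univ_succ] at h3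
  have r0 : (0 : Fin (2 * k + 1 + 1 + 1)).removeNth Z =
      Matrix.vecCons (v, 0) (Matrix.vecCons (z, 0) (vb E b)) := rem_zero _ _
  have r1 : ((0 : Fin (2 * k + 1 + 1)).succ).removeNth Z =
      Matrix.vecCons (u, 0) (Matrix.vecCons (z, 0) (vb E b)) := by
    rw [hZ, rem_succ, rem_zero]
  have r2 : ((0 : Fin (2 * k + 1)).succ.succ).removeNth Z =
      Matrix.vecCons (u, 0) (Matrix.vecCons (v, 0) (vb E b)) := by
    rw [hZ, rem_succ, rem_succ, rem_zero]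
  rw [r0, r1, r2] at h3
  have s0 : Z 0 = (u, 0) := rfl
  have s1 : Z (0 : Fin (2 * k + 1 + 1)).succ = (v, 0) := rfl
  have s2 : Z (0 : Fin (2 * k + 1)).succ.succ = (z, 0) := rfl
  rw [s0, s1, s2] at h3
  have e1 : ∀ a b' c' : E, fderiv ℝ (fun q => qf b (w q)) p (a, 0) b' c' =
      D' (a, 0) (Matrix.vecCons (b', 0) (Matrix.vecCons (c', 0) (vb E b))) := by
    intro a b' c'
    rw [h1]
    rfl
  have e2 : ∀ j : Fin (2 * k), fderiv ℝ (fun q => power (w q) (k + 1)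
      ((j.succ.succ.succ).removeNth Z : Fin (2 * k + 1 + 1) → E × V)) p (0, b j) =
        D' (0, b j) ((j.succ.succ.succ).removeNth Z) := by
    intro j
    rw [h2]
    rfl
  rw [e1, e1, e1]
  simp only [e2]
  have e3 : ∀ j : Fin (2 * k), (-1) ^ ((j.succ.succ.succ : Fin (2 * k + 1 + 1 + 1)) : ℕ) •
      D' (Z j.succ.succ.succ) ((j.succ.succ.succ).removeNth Z) =
      - ((-1 : ℝ) ^ (j : ℕ) * D' (0, b j) ((j.succ.succ.succ).removeNth Z)) := by
    intro j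
    have e4 : Z j.succ.succ.succ = (0, b j) := rfl
    rw [e4]
    simp only [Fin.val_succ]
    rw [zsmul_eq_mul]
    push_cast
    ring
  simp only [e3, Finset.sum_neg_distrib] at h3
  rw [swap_two (D' (v, 0)) (z, 0) (u, 0) (vb E b)]
  simp only [Fin.val_zero, pow_zero, one_smul, Fin.val_succ, zero_add, pow_one] at h3
  have e5 : ((-1 : ℤ) ^ (1 + 1)) = 1 := by norm_num
  rw [e5, one_smul, neg_smul, one_smul] at h3
  linarith

end Pool.Agent.H24.FD
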