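import Pool.Agent.H24.FD.Br

/-!
# The theorem
-/

set_option autoImplicit false
set_option maxSynthPendingDepth 3

open Set
open scoped ContDiff Manifold

namespace Pool.Agent.H24.FD

open Pool.Agent.TH242.TI Pool.Agent.TH835.HF Pool.Agent.H24.FDP

theorem final {E X V : Type*} [NormedAddCommGroup E] [NormedSpace ℝ E] [FiniteDimensional ℝ E]
    [NormedAddCommGroup V] [NormedSpace ℝ V] [TopologicalSpace X] [PreconnectedSpace X]
    [ChartedSpace E X] [IsManifold 𝓘(ℝ, E) ∞ X] (k : ℕ) (b : Module.Basis (Fin (2 * k)) ℝ V)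
    (j : atlas E X → E → E →ₗ[ℝ] E) :
    List.TFAE [
      ∃ w : atlas E X → E → E → E → ℝ, IsSymplectic (charts E X) w ∧ Tames w j,
      ∃ w : atlas E X → E × V → E × V → E × V → ℝ,
        IsSymplectic (productCharts E X V) w ∧ IsPeriodic b w ∧ TamesFibredOver w j,
      ∃ (w : atlas E X → E × V → E × V → E × V → ℝ) (c : ℝ),
        IsClosedForm (productCharts E X V) w ∧ IsPeriodic b w ∧ FibrePowerTames b c w j] := by
  have hfd : FiniteDimensional ℝ V := b.finiteDimensional_of_finite
  tfae_have 2 → 3 := by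
    rintro ⟨w, ⟨hw, -⟩, hp, hh⟩
    obtain ⟨om, h1, h2, h3, h4, h5⟩ := exists_gen hw
    have hcl : Cl om := ⟨h1, h2, h3, h4⟩
    choose! J hJ using hh
    have hJ1 : ∀ e, ∀ y ∈ (charts E X e).target, ∀ s : V, ∀ z, z ≠ 0 →
        0 < om e (y, s) z (J e y s z) := fun e y hy s z hz => by
      rw [h5 e (y, s) ⟨hy, mem_univ _⟩]
      exact (hJ e y hy s).1 z hz
    obtain ⟨c, hc0, hc⟩ := sign_global b hcl fun e y hy s =>
      vert_nd (j := j e y) (map_zero _) (hJ1 e y hy s) (hJ e y hy s).2
    refine ⟨w, c, hw, hp, fun e y hy s u hu => ?_⟩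
    have i1 := fib_pos b (fun v => hcl.alt e (y, s) ⟨hy, mem_univ _⟩ v) (j := j e y) (map_zero _)
      (hJ1 e y hy s) (hJ e y hy s).2 hu
    have i2 := hc e y hy s
    have i3 : 0 < (c * fib b (om e (y, s)) u (j e y u)) *
        (power (om e (y, s)) k (vb E b) * power (om e (y, s)) k (vb E b)) := by
      have i4 : (c * fib b (om e (y, s)) u (j e y u)) *
        (power (om e (y, s)) k (vb E b) * power (om e (y, s)) k (vb E b)) =
        (fib b (om e (y, s)) u (j e y u) * power (om e (y, s)) k (vb E b)) *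
          (c * power (om e (y, s)) k (vb E b)) := by ring
      rw [i4]
      exact mul_pos i1 i2
    have i5 := pos_of_mul_pos_left i3 (mul_self_nonneg _)
    rw [fib_eq b (anti_of_alt (hcl.alt e (y, s) ⟨hy, mem_univ _⟩)) (w e (y, s))
      (h5 e (y, s) ⟨hy, mem_univ _⟩)] at i5
    have i6 : c * ((2 ^ (k + 1) * ((k + 1).factorial : ℝ)) *
        fibrePower b (w e (y, s)) u (j e y u)) =
        (c * fibrePower b (w e (y, s)) u (j e y u)) *
          (2 ^ (k + 1) * ((k + 1).factorial : ℝ)) := by ring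
    rw [i6] at i5
    exact pos_of_mul_pos_left i5 (by positivity)
  tfae_have 3 → 1 := by
    rintro ⟨w, c, hw, hp, hh⟩
    obtain ⟨om, h1, h2, h3, h4, h5⟩ := exists_gen hw
    have hcl : Cl om := ⟨h1, h2, h3, h4⟩
    have hper : Per b om := by
      intro e y hy s i
      refine ContinuousLinearMap.ext fun u => ContinuousLinearMap.ext fun v => ?_
      rw [h5 e (y, s + b i) ⟨hy, mem_univ _⟩, h5 e (y, s) ⟨hy, mem_univ _⟩, hp e y hy s i]
    have hq : ∀ e : atlas E X, ∀ y ∈ (e : OpenPartialHomeomorph X E).target, ∀ s : V, ∀ u : E,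
        u ≠ 0 → 0 < qf b (om e (y, s)) u (c • j e y u) := by
      intro e y hy s u hu
      rw [map_smul, smul_eq_mul, qf_apply,
        fib_eq b (anti_of_alt (hcl.alt e (y, s) ⟨hy, mem_univ _⟩)) (w e (y, s))
        (h5 e (y, s) ⟨hy, mem_univ _⟩)]
      have i1 := hh e y hy s u hu
      have i2 : c * ((2 ^ (k + 1) * ((k + 1).factorial : ℝ)) *
        fibrePower b (w e (y, s)) u (j e y u)) =
        (c * fibrePower b (w e (y, s)) u (j e y u)) *
          (2 ^ (k + 1) * ((k + 1).factorial : ℝ)) := by ring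
      rw [i2]
      exact mul_pos i1 (by positivity)
    obtain ⟨sg, hsg, hQ⟩ := descend b hcl hper
      (fun e y Φ => ∀ u, u ≠ 0 → 0 < Φ u (c • j e y u))
      (fun e y => stab_pos (fun u => c • j e y u)) hq
      (fun e y _ Φ hΦ u hu => ⟨_, (hΦ u hu).ne'⟩)
    by_cases hc : c = 0
    · -- then all tangent spaces are zero
      refine ⟨fun e y u v => sg e y u v, symplectic_of hsg, fun e y hy u hu => ?_⟩
      have := hh e y hy 0 u hu
      rw [hc, zero_mul] at this
      exact absurd this (lt_irrefl _)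
    · refine ⟨fun e y u v => (c • sg e y) u v, symplectic_of (sym_smul hsg hc),
        fun e y hy u hu => ?_⟩
      have h2 := hQ e y hy u hu
      rw [map_smul] at h2
      exact h2
  tfae_have 1 → 2 := by
    rintro ⟨sg0, hs, hj⟩
    obtain ⟨sg, h1, h2, h3, h4, h5⟩ := exists_gen hs.closedForm
    obtain ⟨K, hK, hKn⟩ := exists_K V (by
      rw [Module.finrank_eq_card_basis b, Fintype.card_fin]
      exact even_two_mul k)
    obtain ⟨om, hom, h⟩ := product (E := E) (X := X) (V := V) (sg := sg)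
      ⟨h1, h2, h3, h4, fun e y hy u hu => by
        obtain ⟨v, hv⟩ := hs.nondeg e y hy u hu
        exact ⟨v, by rw [h5 e y hy]; exact hv⟩⟩ hK hKn
    refine ⟨fun e p u v => om e p u v, symplectic_of hom, fun e y _ s i => ?_, fun e y hy s => ?_⟩
    · funext u v
      show om e (y, s + b i) u v = om e (y, s) u v
      rw [h, h]
    · obtain ⟨j', hj'⟩ := exists_J hK hKn
      refine ⟨(j e y).prodMap (j' : V →ₗ[ℝ] V), fun z hz => ?_, fun z => rfl⟩
      show 0 < om e (y, s) z (((j e y).prodMap (j' : V →ₗ[ℝ] V)) z)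
      rw [h]
      show 0 < sg e y z.1 (j e y z.1) + K z.2 (j' z.2)
      by_cases h0 : z.1 = 0
      · have h2 : z.2 ≠ 0 := fun h2 => hz (Prod.ext h0 h2)
        rw [h0, map_zero, map_zero]
        have := hj' _ h2
        simpa using this
      · have h3 : 0 < sg e y z.1 (j e y z.1) := by
          rw [h5 e y hy]
          exact hj e y hy _ h0
        by_cases h2 : z.2 = 0
        · rw [h2, map_zero, map_zero]
          simpa using h3
        · exact add_pos h3 (hj' _ h2)
  tfae_finish

end Pool.Agent.H24.FD
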