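import Pool.Agent.H24.FD.Fib

/-!
# Descent of closed forms from `X × V` to `X`
-/

set_option autoImplicit false
set_option maxSynthPendingDepth 3

open Set
open scoped ContDiff Manifold

noncomputable section

namespace Pool.Agent.H24.FD

open Pool.Agent.TH242.TI Pool.Agent.TH835.HF

variable {E X V : Type*} [NormedAddCommGroup E] [NormedSpace ℝ E] [FiniteDimensional ℝ E]
  [NormedAddCommGroup V] [NormedSpace ℝ V] [FiniteDimensional ℝ V]
  [TopologicalSpace X] [ChartedSpace E X] [IsManifold 𝓘(ℝ, E) ∞ X]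

theorem descend {k : ℕ} (b : Fin (2 * k) → V)
    {om : atlas E X → E × V → (E × V) →L[ℝ] (E × V) →L[ℝ] ℝ} (h : Cl om) (hp : Per b om)
    (Q : atlas E X → E → (E →L[ℝ] E →L[ℝ] ℝ) → Prop) (hQ : ∀ e y, Stab (Q e y))
    (hq : ∀ e : atlas E X, ∀ y ∈ (e : OpenPartialHomeomorph X E).target, ∀ s,
      Q e y (qf b (om e (y, s))))
    (hnd : ∀ e : atlas E X, ∀ y ∈ (e : OpenPartialHomeomorph X E).target, ∀ Φ, Q e y Φ → ND Φ) :
    ∃ sg : atlas E X → E → E →L[ℝ] E →L[ℝ] ℝ,
      Sym (fun e : atlas E X => (e : OpenPartialHomeomorph X E)) sg ∧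
      ∀ e : atlas E X, ∀ y ∈ (e : OpenPartialHomeomorph X E).target, Q e y (sg e y) := by
  set l : List V := List.ofFn b with hl
  have hS : ∀ e : atlas E X, IsOpen (e : OpenPartialHomeomorph X E).target := fun e =>
    (e : OpenPartialHomeomorph X E).open_target
  have hom : ∀ e : atlas E X, ContDiffOn ℝ ∞ (om e)
      ((e : OpenPartialHomeomorph X E).target ×ˢ (univ : Set V)) := fun e => h.smooth e
  have hqs : ∀ e : atlas E X, ContDiffOn ℝ ∞ (fun p => qf b (om e p))
      ((e : OpenPartialHomeomorph X E).target ×ˢ (univ : Set V)) := fun e => qf_smooth b (hom e)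
  have hev : ∀ (e : atlas E X), ∀ y ∈ (e : OpenPartialHomeomorph X E).target, ∀ (u v : E),
      AV l (fun p => qf b (om e p)) (y, 0) u v = AV l (fun p => fib b (om e p) u v) (y, 0) := by
    intro e y hy u v
    exact (AV_clm (evL u v) l (hS e) (hqs e) (y, 0) ⟨hy, mem_univ _⟩).symm
  refine ⟨fun e y => AV l (fun p => qf b (om e p)) (y, 0), ⟨?_, ?_, ?_, ?_, ?_⟩,
    fun e y hy => AV_stab l (hS e) (hqs e) hy (hQ e y) (hq e y hy) 0⟩
  · intro e
    have h1 : ContDiff ℝ ∞ fun y : E => (y, (0 : V)) := contDiff_id.prodMk contDiff_const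
    exact (AV_smooth l (hS e) (hqs e)).comp h1.contDiffOn fun y hy => ⟨hy, mem_univ _⟩
  · intro e y hy u
    rw [hev e y hy]
    have h1 : (fun p => fib b (om e p) u u) = fun _ => 0 := by
      funext p
      exact qf_alt b (om e p) u
    rw [h1, AV_zero]
  · rintro e e' x ⟨hx, hx'⟩ u v
    rw [hev e _ ((e : OpenPartialHomeomorph X E).map_source hx),
      hev e' _ ((e' : OpenPartialHomeomorph X E).map_source hx')]
    refine AV_fib l (fun s => ?_) 0
    refine fib_map b _ _ _ (fun a c => ?_) u v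
    have h1 := h.compat e e' (x, s) ⟨⟨hx, mem_univ _⟩, ⟨hx', mem_univ _⟩⟩ a c
    obtain ⟨a1, a2⟩ := a
    obtain ⟨c1, c2⟩ := c
    rw [pc_trans e.2 e'.2 hx hx', pc_trans e.2 e'.2 hx hx'] at h1
    exact h1
  · intro e y hy u v z
    have hmem : ((y, (0 : V)) : E × V) ∈
      (e : OpenPartialHomeomorph X E).target ×ˢ (univ : Set V) := ⟨hy, mem_univ _⟩
    have hopen := (hS e).prod (isOpen_univ (X := V))
    have h1 : HasFDerivAt (fun y => AV l (fun p => qf b (om e p)) (y, (0 : V)))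
        ((AV l (fderiv ℝ (fun p => qf b (om e p))) (y, 0)) ∘L (ContinuousLinearMap.inl ℝ E V)) y :=
      HasFDerivAt.comp y (AV_deriv l (hS e) (hqs e) (y, 0) hmem) (hasFDerivAt_prodMk_left y (0 : V))
    show fderiv ℝ (fun y => AV l (fun p => qf b (om e p)) (y, (0 : V))) y u v z +
      fderiv ℝ (fun y => AV l (fun p => qf b (om e p)) (y, (0 : V))) y v z u +
      fderiv ℝ (fun y => AV l (fun p => qf b (om e p)) (y, (0 : V))) y z u v = 0
    rw [h1.fderiv]
    let ap : E → ((E × V) →L[ℝ] (E →L[ℝ] E →L[ℝ] ℝ)) →L[ℝ] (E →L[ℝ] E →L[ℝ] ℝ) := fun a =>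
      ContinuousLinearMap.apply ℝ (E →L[ℝ] E →L[ℝ] ℝ) ((a, 0) : E × V)
    let L : ((E × V) →L[ℝ] (E →L[ℝ] E →L[ℝ] ℝ)) →L[ℝ] ℝ :=
      (evL v z).comp (ap u) + (evL z u).comp (ap v) + (evL u v).comp (ap z)
    have hL : ∀ D, L D = D (u, 0) v z + D (v, 0) z u + D (z, 0) u v := fun _ => rfl
    show L (AV l (fderiv ℝ (fun p => qf b (om e p))) (y, 0)) = 0
    have hd1 : ContDiffOn ℝ ∞ (fderiv ℝ (fun p => qf b (om e p)))
        ((e : OpenPartialHomeomorph X E).target ×ˢ (univ : Set V)) :=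
      (hqs e).fderiv_of_isOpen hopen (by simp)
    rw [← AV_clm L l (hS e) hd1 (y, 0) hmem]
    -- the vector of the functions in the divergence
    let Z : Fin (2 * k + 1 + 1 + 1) → E × V := Matrix.vecCons (u, 0) (Matrix.vecCons (v, 0)
          (Matrix.vecCons (z, 0) (vb E b)))
    let g : Fin (2 * k) → E × V → ℝ := fun j p => power (om e p) (k + 1)
      ((j.succ.succ.succ).removeNth Z : Fin (2 * k + 1 + 1) → E × V)
    have hg : ∀ j, ContDiffOn ℝ ∞ (g j)
        ((e : OpenPartialHomeomorph X E).target ×ˢ (univ : Set V)) := fun j =>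
      clm_smooth (A := (E × V) [⋀^Fin (2 * k + 1 + 1)]→L[ℝ] ℝ) (B := ℝ) (C := E × V)
        (ContinuousAlternatingMap.apply ℝ (E × V) ℝ ((j.succ.succ.succ).removeNth Z))
        (power_contDiffOn (hom e) (k + 1))
    have hgp : ∀ j, ∀ p ∈ (e : OpenPartialHomeomorph X E).target ×ˢ (univ : Set V),
        g j (p + ((0 : E), b j)) = g j p := by
      rintro j ⟨y', s⟩ hp'
      have h2 : ((y', s) : E × V) + ((0 : E), b j) = (y', s + b j) := by simp
      show power (om e ((y', s) + ((0 : E), b j))) (k + 1) _ = power (om e (y', s)) (k + 1) _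
      rw [h2, hp e y' hp'.1 s j]
    have hgd : ∀ j, ContDiffOn ℝ ∞ (fun p => fderiv ℝ (g j) p ((0 : E), b j))
        ((e : OpenPartialHomeomorph X E).target ×ˢ (univ : Set V)) := fun j =>
      ((hg j).fderiv_of_isOpen hopen (by simp)).clm_apply contDiffOn_const
    let f : E × V → Fin (2 * k) → ℝ := fun p j => fderiv ℝ (g j) p ((0 : E), b j)
    have hf : ContDiffOn ℝ ∞ f ((e : OpenPartialHomeomorph X E).target ×ˢ (univ : Set V)) :=
      contDiffOn_pi.2 hgd
    let M : (Fin (2 * k) → ℝ) →L[ℝ] ℝ :=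
      ∑ j : Fin (2 * k), (-1 : ℝ) ^ (j : ℕ) • ContinuousLinearMap.proj j
    have hM : ∀ r, M r = ∑ j : Fin (2 * k), (-1 : ℝ) ^ (j : ℕ) * r j := by
      intro r
      simp [M, ContinuousLinearMap.sum_apply]
    have key : ∀ p ∈ (e : OpenPartialHomeomorph X E).target ×ˢ (univ : Set V),
        L (fderiv ℝ (fun p => qf b (om e p)) p) = M (f p) := by
      intro p hp'
      rw [hL, hM]
      have hd : HasFDerivAt (om e) (fderiv ℝ (om e) p) p :=
        (((hom e).contDiffAt (hopen.mem_nhds hp')).differentiableAt (by simp)).hasFDerivAt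
      exact closed_point b hd (fun a b c => h.closed e p hp' a b c) u v z
    rw [AV_congr l key (y, 0) hmem, AV_clm M l (hS e) hf (y, 0) hmem]
    have hz : AV l f (y, 0) = 0 := by
      funext j
      have h3 := AV_clm (ContinuousLinearMap.proj (R := ℝ) (φ := fun _ : Fin (2 * k) => ℝ) j) l
        (hS e) hf (y, 0) hmem
      have h4 := AV_div l (hS e) (hg j) (b := b j)
        (by rw [hl, List.mem_ofFn]; exact ⟨j, rfl⟩) (hgp j) (y, 0) hmem
      exact h3.symm.trans h4
    rw [hz, map_zero]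
  · intro e y hy
    exact hnd e y hy _ (AV_stab l (hS e) (hqs e) hy (hQ e y) (hq e y hy) 0)

/-- the product form -/
theorem product {sg : atlas E X → E → E →L[ℝ] E →L[ℝ] ℝ}
    (h : Sym (fun e : atlas E X => (e : OpenPartialHomeomorph X E)) sg)
    {K : V →L[ℝ] V →L[ℝ] ℝ} (hK : ∀ v, K v v = 0) (hKn : ND K) :
    ∃ om : atlas E X → E × V → (E × V) →L[ℝ] (E × V) →L[ℝ] ℝ,
      Sym (fun e : atlas E X => pc V (e : OpenPartialHomeomorph X E)) om ∧
        ∀ e p a b, om e p a b = sg e p.1 a.1 b.1 + K a.2 b.2 := by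
  let C : (E × V) →L[ℝ] (E × V) →L[ℝ] ℝ :=
    K.bilinearComp (ContinuousLinearMap.snd ℝ E V) (ContinuousLinearMap.snd ℝ E V)
  have hC : ∀ a b, C a b = K a.2 b.2 := fun _ _ => rfl
  let om : atlas E X → E × V → (E × V) →L[ℝ] (E × V) →L[ℝ] ℝ := fun e p =>
    LL E V (sg e p.1) + C
  have hom : ∀ e p a b, om e p a b = sg e p.1 a.1 b.1 + K a.2 b.2 := fun _ _ _ _ => rfl
  refine ⟨om, ⟨?_, ?_, ?_, ?_, ?_⟩, hom⟩
  · intro e
    have h1 : ContDiffOn ℝ ∞ (fun p : E × V => sg e p.1)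
        (pc V (e : OpenPartialHomeomorph X E)).target :=
      (h.smooth e).comp contDiff_fst.contDiffOn (fun p hp => hp.1)
    have h2 : ContDiffOn ℝ ∞ (fun p : E × V => LL E V (sg e p.1))
        (pc V (e : OpenPartialHomeomorph X E)).target :=
      Pool.Agent.TH242.TI.smooth_clm (G := E →L[ℝ] E →L[ℝ] ℝ)
        (H := (E × V) →L[ℝ] (E × V) →L[ℝ] ℝ) (LL E V) h1
    exact smooth_add (G := (E × V) →L[ℝ] (E × V) →L[ℝ] ℝ) h2 C
  · intro e y hy u
    rw [hom, h.alt e y.1 hy.1, hK, add_zero]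
  · rintro e e' ⟨x, s⟩ ⟨hx, hx'⟩ ⟨a, v⟩ ⟨b, v'⟩
    have h1 := pc_trans (V := V) e.2 e'.2 hx.1 hx'.1 s
    show om e (pc V (e : OpenPartialHomeomorph X E) (x, s)) (a, v) (b, v') =
      om e' (pc V (e' : OpenPartialHomeomorph X E) (x, s))
        (fderiv ℝ (pc V (e' : OpenPartialHomeomorph X E) ∘
          (pc V (e : OpenPartialHomeomorph X E)).symm)
            (pc V (e : OpenPartialHomeomorph X E) (x, s)) (a, v))
        (fderiv ℝ (pc V (e' : OpenPartialHomeomorph X E) ∘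
          (pc V (e : OpenPartialHomeomorph X E)).symm)
            (pc V (e : OpenPartialHomeomorph X E) (x, s)) (b, v'))
    rw [h1, h1, hom, hom]
    have h2 := h.compat e e' x ⟨hx.1, hx'.1⟩ a b
    show sg e ((e : OpenPartialHomeomorph X E) x) a b + K v v' = _
    rw [h2]
    rfl
  · intro e y hy u v w
    have hd : DifferentiableAt ℝ (sg e) y.1 :=
      ((h.smooth e).contDiffAt ((e : OpenPartialHomeomorph X E).open_target.mem_nhds hy.1)
        ).differentiableAt (by simp)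
    have h1 : HasFDerivAt (fun p : E × V => sg e p.1)
        ((fderiv ℝ (sg e) y.1).comp (ContinuousLinearMap.fst ℝ E V)) y :=
      HasFDerivAt.comp (𝕜 := ℝ) (E := E × V) (F := E) (G := E →L[ℝ] E →L[ℝ] ℝ) y
        hd.hasFDerivAt hasFDerivAt_fst
    have h2 : HasFDerivAt (LL E V : (E →L[ℝ] E →L[ℝ] ℝ) → _) (LL E V) (sg e y.1) :=
      ContinuousLinearMap.hasFDerivAt (𝕜 := ℝ) (E := E →L[ℝ] E →L[ℝ] ℝ)
        (F := (E × V) →L[ℝ] (E × V) →L[ℝ] ℝ) (LL E V)
    have h3 : HasFDerivAt (fun p : E × V => LL E V (sg e p.1))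
        ((LL E V).comp ((fderiv ℝ (sg e) y.1).comp (ContinuousLinearMap.fst ℝ E V))) y :=
      HasFDerivAt.comp (𝕜 := ℝ) (E := E × V) (F := E →L[ℝ] E →L[ℝ] ℝ)
        (G := (E × V) →L[ℝ] (E × V) →L[ℝ] ℝ) y h2 h1
    have h4 : fderiv ℝ (om e) y =
        (LL E V).comp ((fderiv ℝ (sg e) y.1).comp (ContinuousLinearMap.fst ℝ E V)) :=
      der_add (F := E × V) (G := (E × V) →L[ℝ] (E × V) →L[ℝ] ℝ) h3 C
    have h5 := h.closed e y.1 hy.1 u.1 v.1 w.1
    show fderiv ℝ (om e) y u v w + fderiv ℝ (om e) y v w u + fderiv ℝ (om e) y w u v = 0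
    rw [h4]
    exact h5
  · rintro e y hy ⟨a, v⟩ hav
    by_cases ha : a = 0
    · have hv : v ≠ 0 := by
        intro hv
        exact hav (by rw [ha, hv]; rfl)
      obtain ⟨v', hv'⟩ := hKn v hv
      refine ⟨(0, v'), ?_⟩
      rw [hom, ha]
      simpa using hv'
    · obtain ⟨b, hb⟩ := h.nondeg e y.1 hy.1 a ha
      refine ⟨(b, 0), ?_⟩
      rw [hom]
      simpa using hb

omit [FiniteDimensional ℝ E] [IsManifold 𝓘(ℝ, E) ∞ X] in
/-- multiples of symplectic forms -/
theorem sym_smul {sg : atlas E X → E → E →L[ℝ] E →L[ℝ] ℝ}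
    (h : Sym (fun e : atlas E X => (e : OpenPartialHomeomorph X E)) sg) {c : ℝ} (hc : c ≠ 0) :
    Sym (fun e : atlas E X => (e : OpenPartialHomeomorph X E)) (fun e y => c • sg e y) := by
  refine ⟨fun e => ?_, fun e y hy u => ?_, fun e e' x hx u v => ?_, fun e y hy u v z => ?_,
    fun e y hy u hu => ?_⟩
  · exact clm_smooth (A := E →L[ℝ] E →L[ℝ] ℝ) (B := E →L[ℝ] E →L[ℝ] ℝ) (C := E)
      (c • ContinuousLinearMap.id ℝ (E →L[ℝ] E →L[ℝ] ℝ)) (h.smooth e)
  · show c * sg e y u u = 0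
    rw [h.alt e y hy, mul_zero]
  · exact congrArg (fun t => c * t) (h.compat e e' x hx u v)
  · have hd : DifferentiableAt ℝ (sg e) y :=
      ((h.smooth e).contDiffAt ((e : OpenPartialHomeomorph X E).open_target.mem_nhds hy)
        ).differentiableAt (by simp)
    have h1 : fderiv ℝ (fun y => c • sg e y) y =
        (c • ContinuousLinearMap.id ℝ (E →L[ℝ] E →L[ℝ] ℝ)) ∘L fderiv ℝ (sg e) y :=
      (clm_deriv (A := E →L[ℝ] E →L[ℝ] ℝ) (B := E →L[ℝ] E →L[ℝ] ℝ) (C := E)
        (c • ContinuousLinearMap.id ℝ (E →L[ℝ] E →L[ℝ] ℝ)) hd.hasFDerivAt).fderiv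
    rw [h1]
    show c * fderiv ℝ (sg e) y u v z + c * fderiv ℝ (sg e) y v z u +
      c * fderiv ℝ (sg e) y z u v = 0
    rw [← mul_add, ← mul_add, h.closed e y hy, mul_zero]
  · obtain ⟨v, hv⟩ := h.nondeg e y hy u hu
    exact ⟨v, mul_ne_zero hc hv⟩

/-- the sign of the top power on the fibres is constant -/
theorem sign_global [PreconnectedSpace X] {k : ℕ} (b : Module.Basis (Fin (2 * k)) ℝ V)
    {om : atlas E X → E × V → (E × V) →L[ℝ] (E × V) →L[ℝ] ℝ} (h : Cl om)
    (hn : ∀ e : atlas E X, ∀ y ∈ (e : OpenPartialHomeomorph X E).target, ∀ s : V,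
      ND (vert (om e (y, s)))) :
    ∃ c : ℝ, c ≠ 0 ∧ ∀ e : atlas E X, ∀ y ∈ (e : OpenPartialHomeomorph X E).target, ∀ s : V,
      0 < c * power (om e (y, s)) k (vb E b) := by
  have h0 : ∀ e : atlas E X, ∀ y ∈ (e : OpenPartialHomeomorph X E).target, ∀ s : V,
      power (om e (y, s)) k (vb E b) ≠ 0 := by
    intro e y hy s
    rw [← power_vert]
    exact power_basis_ne b (fun v => h.alt e (y, s) ⟨hy, mem_univ _⟩ _) (hn e y hy s)
  let ch : X → atlas E X := fun x => ⟨chartAt E x, chart_mem_atlas E x⟩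
  let f : X × V → ℝ := fun z => power (om (ch z.1) (chartAt E z.1 z.1, z.2)) k (vb E b)
  have hf : ∀ (e : atlas E X) (x : X) (s : V), x ∈ (e : OpenPartialHomeomorph X E).source →
      f (x, s) = power (om e ((e : OpenPartialHomeomorph X E) x, s)) k (vb E b) := by
    intro e x s hx
    have hx' : x ∈ (chartAt E x).source := mem_chart_source E x
    let A : E →L[ℝ] E := fderiv ℝ ((e : OpenPartialHomeomorph X E) ∘ (chartAt E x).symm)
      (chartAt E x x)
    have h1 : ∀ u v : E × V, om (ch x) (chartAt E x x, s) u v =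
        om e ((e : OpenPartialHomeomorph X E) x, s) (A.prodMap (ContinuousLinearMap.id ℝ V) u)
          (A.prodMap (ContinuousLinearMap.id ℝ V) v) := by
      rintro ⟨u1, u2⟩ ⟨v1, v2⟩
      have h2 := h.compat (ch x) e (x, s) ⟨⟨hx', mem_univ _⟩, ⟨hx, mem_univ _⟩⟩ (u1, u2) (v1, v2)
      rw [pc_trans (ch x).2 e.2 hx' hx, pc_trans (ch x).2 e.2 hx' hx] at h2
      exact h2
    show power (om (ch x) (chartAt E x x, s)) k (vb E b) = _
    rw [power_comp _ _ _ h1]
    congr 1
    funext i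
    refine Prod.ext ?_ rfl
    exact _root_.map_zero A
  have hcont : Continuous f := by
    rw [continuous_iff_continuousAt]
    rintro ⟨x, s⟩
    have hx : x ∈ (chartAt E x).source := mem_chart_source E x
    have h1 : f =ᶠ[nhds (x, s)] fun z => power (om (ch x) (chartAt E x z.1, z.2)) k (vb E b) := by
      have h2 : ∀ᶠ z : X × V in nhds (x, s), z.1 ∈ (chartAt E x).source :=
        continuousAt_fst.eventually ((chartAt E x).open_source.mem_nhds hx)
      filter_upwards [h2] with z hz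
      exact hf (ch x) z.1 z.2 hz
    refine ContinuousAt.congr ?_ h1.symm
    have h3 : ContinuousOn (fun p : E × V => power (om (ch x) p) k (vb E b))
        ((chartAt E x).target ×ˢ (univ : Set V)) := by
      have h4 : ContDiffOn ℝ ∞ (fun p : E × V => power (om (ch x) p) k (vb E b))
          ((chartAt E x).target ×ˢ (univ : Set V)) :=
        clm_smooth (A := (E × V) [⋀^Fin (2 * k)]→L[ℝ] ℝ) (B := ℝ) (C := E × V)
          (ContinuousAlternatingMap.apply ℝ (E × V) ℝ (vb E b))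
          (power_contDiffOn (h.smooth (ch x)) k)
      exact h4.continuousOn
    have h5 : ContinuousAt (fun p : E × V => power (om (ch x) p) k (vb E b))
        (chartAt E x x, s) :=
      h3.continuousAt (((chartAt E x).open_target.prod isOpen_univ).mem_nhds
        ⟨(chartAt E x).map_source hx, mem_univ _⟩)
    have h6 : ContinuousAt (fun z : X × V => (chartAt E x z.1, z.2)) (x, s) :=
      (((chartAt E x).continuousAt hx).comp (x := (x, s)) continuousAt_fst).prodMk continuousAt_snd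
    exact ContinuousAt.comp (x := (x, s)) (f := fun z : X × V => (chartAt E x z.1, z.2)) h5 h6
  have hne : ∀ z, f z ≠ 0 := by
    rintro ⟨x, s⟩
    exact h0 _ _ ((chartAt E x).map_source (mem_chart_source E x)) s
  have hsign : (∀ z, 0 < f z) ∨ ∀ z, f z < 0 := by
    by_contra hcon
    push Not at hcon
    obtain ⟨⟨a, ha⟩, b, hb⟩ := hcon
    obtain ⟨s, hs⟩ := mem_range_of_exists_le_of_exists_ge hcont ⟨a, ha⟩ ⟨b, hb⟩
    exact hne s hs
  have hback : ∀ e : atlas E X, ∀ y ∈ (e : OpenPartialHomeomorph X E).target, ∀ s : V,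
      f ((e : OpenPartialHomeomorph X E).symm y, s) = power (om e (y, s)) k (vb E b) := by
    intro e y hy s
    rw [hf e _ s ((e : OpenPartialHomeomorph X E).map_target hy),
      (e : OpenPartialHomeomorph X E).right_inv hy]
  rcases hsign with h1 | h1
  · refine ⟨1, one_ne_zero, fun e y hy s => ?_⟩
    rw [one_mul, ← hback e y hy]
    exact h1 _
  · refine ⟨-1, by norm_num, fun e y hy s => ?_⟩
    rw [← hback e y hy, neg_one_mul]
    exact neg_pos.2 (h1 _)

/-- a continuous function without zeros has a constant sign -/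
theorem const_sign {f : V → ℝ} (hf : Continuous f) (h0 : ∀ s, f s ≠ 0) :
    (∀ s, 0 < f s) ∨ ∀ s, f s < 0 := by
  by_contra hcon
  push Not at hcon
  obtain ⟨⟨a, ha⟩, b, hb⟩ := hcon
  obtain ⟨s, hs⟩ := mem_range_of_exists_le_of_exists_ge hf ⟨a, ha⟩ ⟨b, hb⟩
  exact h0 s hs

end Pool.Agent.H24.FD
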