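import Mathlib

/-!
# Powers of a two-form
-/

set_option autoImplicit false
set_option maxSynthPendingDepth 3

open ContinuousAlternatingMap
open scoped ContDiff

noncomputable section

namespace Pool.Agent.H24.FD

variable {F : Type*} [NormedAddCommGroup F] [NormedSpace ℝ F]

/-- `2 w ∧ α` for a bilinear form `w` (alternating) and an alternating form `α` -/
def wedge {m : ℕ} (w : F →L[ℝ] F →L[ℝ] ℝ) (α : F [⋀^Fin m]→L[ℝ] ℝ) :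
    F [⋀^Fin (m + 2)]→L[ℝ] ℝ :=
  alternatizeUncurryFin (alternatizeUncurryFinCLM ℝ F ℝ ∘L
    ((ContinuousLinearMap.smulRightL ℝ F (F [⋀^Fin m]→L[ℝ] ℝ)).flip α ∘L w))

/-- the power `w ^ k` of the two-form `w`, times the number `2 ^ k` -/
def power (w : F →L[ℝ] F →L[ℝ] ℝ) : (k : ℕ) → F [⋀^Fin (2 * k)]→L[ℝ] ℝ
  | 0 => constOfIsEmpty ℝ F (Fin 0) 1
  | k + 1 => wedge w (power w k)

/-- `l ∧ α` -/
def W {m : ℕ} (l : F →L[ℝ] ℝ) (α : F [⋀^Fin m]→L[ℝ] ℝ) : F [⋀^Fin (m + 1)]→L[ℝ] ℝ :=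
  alternatizeUncurryFin (l.smulRight α)

variable (F) in
/-- the bilinear map underlying `wedge` -/
def T (m : ℕ) : (F [⋀^Fin m]→L[ℝ] ℝ) →L[ℝ] (F →L[ℝ] F →L[ℝ] ℝ) →L[ℝ]
    (F →L[ℝ] F →L[ℝ] F [⋀^Fin m]→L[ℝ] ℝ) :=
  (ContinuousLinearMap.compL ℝ F (F →L[ℝ] ℝ) (F →L[ℝ] F [⋀^Fin m]→L[ℝ] ℝ)) ∘L
    (ContinuousLinearMap.smulRightL ℝ F (F [⋀^Fin m]→L[ℝ] ℝ)).flip

theorem T_apply {m : ℕ} (α : F [⋀^Fin m]→L[ℝ] ℝ) (w : F →L[ℝ] F →L[ℝ] ℝ) (u v : F) :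
    T F m α w u v = w u v • α := rfl

variable (F) in
/-- double alternation -/
def A2 (m : ℕ) : (F →L[ℝ] F →L[ℝ] F [⋀^Fin m]→L[ℝ] ℝ) →L[ℝ] F [⋀^Fin (m + 2)]→L[ℝ] ℝ :=
  alternatizeUncurryFinCLM ℝ F ℝ ∘L
    (ContinuousLinearMap.compL ℝ F (F →L[ℝ] F [⋀^Fin m]→L[ℝ] ℝ) (F [⋀^Fin (m + 1)]→L[ℝ] ℝ)
      (alternatizeUncurryFinCLM ℝ F ℝ))

variable (F) in
/-- triple alternation -/
def A3 (m : ℕ) : (F →L[ℝ] F →L[ℝ] F →L[ℝ] F [⋀^Fin m]→L[ℝ] ℝ) →L[ℝ]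
    F [⋀^Fin (m + 3)]→L[ℝ] ℝ :=
  alternatizeUncurryFinCLM ℝ F ℝ ∘L
    (ContinuousLinearMap.compL ℝ F (F →L[ℝ] F →L[ℝ] F [⋀^Fin m]→L[ℝ] ℝ)
      (F [⋀^Fin (m + 2)]→L[ℝ] ℝ) (A2 F m))

theorem A2_apply {m : ℕ} (g : F →L[ℝ] F →L[ℝ] F [⋀^Fin m]→L[ℝ] ℝ) :
    A2 F m g = alternatizeUncurryFin (alternatizeUncurryFinCLM ℝ F ℝ ∘L g) := rfl

theorem A3_apply {m : ℕ} (g : F →L[ℝ] F →L[ℝ] F →L[ℝ] F [⋀^Fin m]→L[ℝ] ℝ) :
    A3 F m g = alternatizeUncurryFin (A2 F m ∘L g) := rfl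

theorem wedge_eq {m : ℕ} (w : F →L[ℝ] F →L[ℝ] ℝ) (α : F [⋀^Fin m]→L[ℝ] ℝ) :
    wedge w α = A2 F m (T F m α w) := rfl

theorem A2_flip {m : ℕ} (g : F →L[ℝ] F →L[ℝ] F [⋀^Fin m]→L[ℝ] ℝ) :
    A2 F m g.flip = - A2 F m g := by
  have h1 : A2 F m (g.flip + g) = 0 :=
    alternatizeUncurryFin_alternatizeUncurryFinCLM_comp_of_symmetric (f := g.flip + g)
      fun x y => add_comm (g y x) (g x y)
  rw [map_add] at h1
  exact eq_neg_of_add_eq_zero_left h1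

/-- exchange of the first two arguments -/
theorem A3_flip {m : ℕ} (g : F →L[ℝ] F →L[ℝ] F →L[ℝ] F [⋀^Fin m]→L[ℝ] ℝ) :
    A3 F m g.flip = - A3 F m g := by
  have h1 : ∀ g : F →L[ℝ] F →L[ℝ] F →L[ℝ] F [⋀^Fin m]→L[ℝ] ℝ,
      A3 F m g = A2 F (m + 1) ((ContinuousLinearMap.compL ℝ F
        (F →L[ℝ] F [⋀^Fin m]→L[ℝ] ℝ) (F [⋀^Fin (m + 1)]→L[ℝ] ℝ)
          (alternatizeUncurryFinCLM ℝ F ℝ)) ∘L g) := by
    intro g
    rw [A3_apply, A2_apply]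
    congr 1
  rw [h1, h1, ← A2_flip]
  congr 1

/-- exchange of the last two arguments -/
theorem A3_flip' {m : ℕ} (g g' : F →L[ℝ] F →L[ℝ] F →L[ℝ] F [⋀^Fin m]→L[ℝ] ℝ)
    (h : ∀ a b c, g' a b c = g a c b) :
    A3 F m g' = - A3 F m g := by
  rw [A3_apply, A3_apply, ← alternatizeUncurryFinCLM_apply, ← alternatizeUncurryFinCLM_apply,
    ← map_neg]
  congr 1
  ext1 a
  have h1 : g' a = (g a).flip := by
    ext1 b
    ext1 c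
    rw [h]
    rfl
  show A2 F m (g' a) = - A2 F m (g a)
  rw [h1, A2_flip]

theorem A3_cyc {m : ℕ} (g g' : F →L[ℝ] F →L[ℝ] F →L[ℝ] F [⋀^Fin m]→L[ℝ] ℝ)
    (h : ∀ a b c, g' a b c = g c a b) :
    A3 F m g' = A3 F m g := by
  have h1 : A3 F m g' = - A3 F m g.flip := A3_flip' _ _ fun a b c => by
    rw [h]
    rfl
  rw [h1, A3_flip, neg_neg]

/-- contraction of an alternation -/
theorem curry_alt {m : ℕ} (f : F →L[ℝ] F [⋀^Fin (m + 1)]→L[ℝ] ℝ) (v : F) (c : Fin (m + 1) → F) :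
    alternatizeUncurryFin f (Matrix.vecCons v c) =
      f v c - ∑ j : Fin (m + 1), (-1) ^ (j : ℕ) • f (c j) (Matrix.vecCons v (j.removeNth c)) := by
  rw [alternatizeUncurryFin_apply, Fin.sum_univ_succ]
  have h0 : (0 : Fin (m + 2)).removeNth (Matrix.vecCons v c) = c := by
    funext i
    simp [Fin.removeNth]
  have hs : ∀ j : Fin (m + 1), (j.succ).removeNth (Matrix.vecCons v c) =
      Matrix.vecCons v (j.removeNth c) := by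
    intro j
    funext i
    refine Fin.cases ?_ (fun i => ?_) i
    · simp [Fin.removeNth]
    · simp [Fin.removeNth]
  rw [h0]
  simp only [Fin.val_zero, pow_zero, one_smul, Matrix.cons_val_zero, Matrix.cons_val_succ, hs,
    Fin.val_succ]
  rw [sub_eq_add_neg, ← Finset.sum_neg_distrib]
  congr 1
  refine Finset.sum_congr rfl fun j _ => ?_
  rw [pow_succ, mul_neg_one, neg_smul]

end Pool.Agent.H24.FD
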